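import Pool.Agent.Lib.MP_9a9528_al.Free

/-!
The pairing of the free algebra with itself for which words are orthonormal.
-/

namespace MP9a9528

open MonoidAlgebra

variable {R : Type} [CommRing R]

/-- pairing with a fixed element, as a linear map in the first variable -/
noncomputable def pairL (t : T R) : T R →ₗ[R] R :=
  (Finsupp.linearCombination R (fun w => t.coeff w)).comp (coeffLinearEquiv R).toLinearMap

/-- the pairing for which words are orthonormal -/
noncomputable def pair (f t : T R) : R := pairL t f

lemma pair_single (w : Wd) (a : R) (t : T R) : pair (single w a) t = a * t.coeff w := by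
  simp [pair, pairL]

@[simp] lemma pair_add_left (f g t : T R) : pair (f + g) t = pair f t + pair g t := map_add _ _ _

@[simp] lemma pair_zero_left (t : T R) : pair (0 : T R) t = 0 := map_zero _

lemma pair_sub_left (f g t : T R) : pair (f - g) t = pair f t - pair g t := map_sub _ _ _

@[simp] lemma pair_add_right (f s t : T R) : pair f (s + t) = pair f s + pair f t := by
  induction f using MonoidAlgebra.induction_linear with
  | zero => simp
  | add f g hf hg => rw [pair_add_left, pair_add_left, pair_add_left, hf, hg]; ring
  | single w a => rw [pair_single, pair_single, pair_single, coeff_add, Finsupp.add_apply, mul_add]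

@[simp] lemma pair_smul_right (f t : T R) (a : R) : pair f (a • t) = a * pair f t := by
  induction f using MonoidAlgebra.induction_linear with
  | zero => simp
  | add f g hf hg => rw [pair_add_left, pair_add_left, hf, hg]; ring
  | single w b =>
    rw [pair_single, pair_single, coeff_smul, Finsupp.smul_apply, smul_eq_mul]; ring

@[simp] lemma pair_zero_right (f : T R) : pair f 0 = 0 := by
  have := pair_smul_right f 0 0
  rwa [zero_smul, zero_mul] at this

@[simp] lemma pair_neg_right (f t : T R) : pair f (-t) = - pair f t := by
  have := pair_smul_right f t (-1)
  rwa [neg_one_smul, neg_one_mul] at this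

lemma pair_one_left (t : T R) : pair (1 : T R) t = t.coeff 1 := by
  rw [one_def, pair_single, one_mul]

lemma pair_single_right (f : T R) (w : Wd) (a : R) : pair f (single w a) = f.coeff w * a := by
  induction f using MonoidAlgebra.induction_linear with
  | zero => simp
  | add f g hf hg => rw [pair_add_left, hf, hg, coeff_add, Finsupp.add_apply, add_mul]
  | single v b =>
    classical
    rw [pair_single, coeff_single, coeff_single, Finsupp.single_apply, Finsupp.single_apply]
    by_cases h : w = v
    · subst h; simp
    · rw [if_neg h, if_neg (Ne.symm h)]; ring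

lemma ltr_coeff_one (x : Bool) : (ltr R x).coeff 1 = 0 := by
  rw [ltr, coeff_single, Finsupp.single_eq_of_ne]
  exact fun h => FreeMonoid.of_ne_one x h.symm

lemma pair_ltr_mul (f t : T R) (x : Bool) : pair f (ltr R x * t) = pair (dl x f) t := by
  induction f using MonoidAlgebra.induction_linear with
  | zero => simp
  | add f g hf hg => rw [pair_add_left, hf, hg, map_add, pair_add_left]
  | single w a =>
    rcases wd_left w with rfl | ⟨y, v, rfl⟩
    · rw [pair_single, coeff_mul_one, ltr_coeff_one, dl_single_one, pair_zero_left]; ring
    · rw [pair_single, ← dl_coeff, dl_ltr_mul, dl_single]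
      by_cases h : x = y
      · subst h; rw [if_pos rfl, if_pos rfl, pair_single]
      · rw [if_neg h, if_neg (Ne.symm h)]; simp

lemma pair_mul_ltr (f t : T R) (x : Bool) : pair f (t * ltr R x) = pair (dr x f) t := by
  induction f using MonoidAlgebra.induction_linear with
  | zero => simp
  | add f g hf hg => rw [pair_add_left, hf, hg, map_add, pair_add_left]
  | single w a =>
    rcases wd_right w with rfl | ⟨v, y, rfl⟩
    · rw [pair_single, coeff_mul_one, ltr_coeff_one, dr_single_one, pair_zero_left]; ring
    · rw [pair_single, ← dr_coeff, dr_mul_ltr, dr_single]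
      by_cases h : x = y
      · subst h; rw [if_pos rfl, if_pos rfl, pair_single]
      · rw [if_neg h, if_neg (Ne.symm h)]; simp

lemma pair_eq_zero_of_forall {f t : T R} (h : ∀ w, f.coeff w = 0 ∨ t.coeff w = 0) :
    pair f t = 0 := by
  unfold pair pairL
  rw [LinearMap.comp_apply]
  change Finsupp.linearCombination R (fun w => t.coeff w) f.coeff = 0
  rw [Finsupp.linearCombination_apply, Finsupp.sum]
  refine Finset.sum_eq_zero fun w _ => ?_
  rcases h w with h | h
  · rw [h, zero_smul]
  · rw [h, smul_zero]

end MP9a9528
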