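import Pool.Agent.Lib.MP_9a9528_al.Zeta
import Pool.Agent.Lib.MP_9a9528_al.Pair

/-!
The family of homogeneous functionals compatible with all the hierarchical block structures.
-/

namespace MP9a9528

open MonoidAlgebra

section

variable (R : Type) [CommRing R]

/-- span of the letters -/
noncomputable def Vs : Submodule R (T R) := Submodule.span R (Set.range (ltr R))

/-- span of the level `k` hierarchical elements -/
noncomputable def Zs (k : ℕ) : Submodule R (T R) := Submodule.span R (Set.range (zeta R k))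

/-- the family of functionals -/
def Cs : Set (T R) :=
  {f | ∀ k, ∃ e i e' : ℕ, e < len k ∧ e' < len k ∧ f ∈ Vs R ^ e * Zs R k ^ i * Vs R ^ e'}

variable {R}

lemma ltr_mem (x : Bool) : ltr R x ∈ Vs R := Submodule.subset_span ⟨x, rfl⟩

lemma zeta_mem (k b : ℕ) : zeta R k b ∈ Zs R k := Submodule.subset_span ⟨b, rfl⟩

lemma dl_Vs_mul {P : Submodule R (T R)} {f : T R} (hf : f ∈ Vs R * P) (x : Bool) :
    dl x f ∈ P := by
  refine Submodule.mul_induction_on hf ?_ ?_
  · intro v hv t ht
    induction hv using Submodule.span_induction with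
    | mem v hv =>
      obtain ⟨y, rfl⟩ := hv
      rw [dl_ltr_mul]
      split_ifs
      · exact ht
      · exact P.zero_mem
    | zero => rw [zero_mul, map_zero]; exact P.zero_mem
    | add u v _ _ hu hv => rw [add_mul, map_add]; exact P.add_mem hu hv
    | smul a u _ hu => rw [smul_mul_assoc, map_smul]; exact P.smul_mem a hu
  · intro u v hu hv
    rw [map_add]
    exact P.add_mem hu hv

lemma dr_mul_Vs {P : Submodule R (T R)} {f : T R} (hf : f ∈ P * Vs R) (x : Bool) :
    dr x f ∈ P := by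
  refine Submodule.mul_induction_on hf ?_ ?_
  · intro t ht v hv
    induction hv using Submodule.span_induction with
    | mem v hv =>
      obtain ⟨y, rfl⟩ := hv
      rw [dr_mul_ltr]
      split_ifs
      · exact ht
      · exact P.zero_mem
    | zero => rw [mul_zero, map_zero]; exact P.zero_mem
    | add u v _ _ hu hv => rw [mul_add, map_add]; exact P.add_mem hu hv
    | smul a u _ hu => rw [mul_smul_comm, map_smul]; exact P.smul_mem a hu
  · intro u v hu hv
    rw [map_add]
    exact P.add_mem hu hv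

lemma ofFn_prod_mem {P : Submodule R (T R)} : ∀ {m : ℕ} (Y : Fin m → T R) (_ : ∀ i, Y i ∈ P),
    (List.ofFn Y).prod ∈ P ^ m := by
  intro m
  induction m with
  | zero =>
    intro Y _
    rw [List.ofFn_zero, List.prod_nil, pow_zero]
    exact Submodule.one_le.mp le_rfl
  | succ m ih =>
    intro Y hY
    rw [List.ofFn_succ, List.prod_cons, pow_succ']
    exact Submodule.mul_mem_mul (hY 0) (ih _ fun i => hY i.succ)

lemma std_mem_pow {P : Submodule R (T R)} {m : ℕ} (Y : Fin m → T R) (hY : ∀ i, Y i ∈ P) :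
    std Y ∈ P ^ m := by
  unfold std
  refine Submodule.sum_mem _ fun σ _ => ?_
  apply zsmul_mem
  exact ofFn_prod_mem (fun i => Y (σ i)) fun i => hY _

lemma blk_mem_pow {P : Submodule R (T R)} {z : ℕ → T R} (hz : ∀ i, z i ∈ P) (s n : ℕ) :
    blk z s n ∈ P ^ n := by
  induction n with
  | zero => rw [blk, pow_zero]; exact Submodule.one_le.mp le_rfl
  | succ n ih => rw [blk, pow_succ]; exact Submodule.mul_mem_mul ih (hz _)

lemma zeta_succ_mem {P : Submodule R (T R)} {k : ℕ} (h : ∀ b, zeta R k b ∈ P) (b : ℕ) :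
    zeta R (k + 1) b ∈ P ^ NN k := by
  rw [zeta]
  have h1 : std (fun i : Fin (mm k) => blk (zeta R k) (b * NN k + i * mu k) (mu k))
      ∈ (P ^ mu k) ^ mm k := std_mem_pow _ fun i => blk_mem_pow h _ _
  have h2 : blk (zeta R k) (b * NN k + mm k * mu k) (NN k - mm k * mu k)
      ∈ P ^ (NN k - mm k * mu k) := blk_mem_pow h _ _
  have h3 := Submodule.mul_mem_mul h1 h2
  rwa [← pow_mul, mul_comm (mu k), ← pow_add, Nat.add_sub_cancel' (mm_mul_mu_le k)] at h3

lemma zeta_mem_Vs (k b : ℕ) : zeta R k b ∈ Vs R ^ len k := by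
  induction k generalizing b with
  | zero => rw [len_zero, pow_one]; exact ltr_mem _
  | succ k ih =>
    have := zeta_succ_mem ih b
    rwa [← pow_mul, mul_comm, ← len_succ] at this

lemma Zs_le (k : ℕ) : Zs R k ≤ Vs R ^ len k := by
  rw [Zs, Submodule.span_le]
  rintro _ ⟨b, rfl⟩
  exact zeta_mem_Vs k b

lemma zeta_mem_Zs_pow {k K : ℕ} (h : k ≤ K) : ∃ n, ∀ b, zeta R K b ∈ Zs R k ^ n := by
  induction K, h using Nat.le_induction with
  | base => exact ⟨1, fun b => by rw [pow_one]; exact zeta_mem k b⟩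
  | succ K _ ih =>
    obtain ⟨n, hn⟩ := ih
    exact ⟨n * NN K, fun b => by rw [pow_mul]; exact zeta_succ_mem hn b⟩

lemma one_mem_Cs : (1 : T R) ∈ Cs R := by
  intro k
  refine ⟨0, 0, 0, len_pos k, len_pos k, ?_⟩
  rw [pow_zero, pow_zero, one_mul, one_mul]
  exact Submodule.one_le.mp le_rfl

lemma zeta_mem_Cs (K b : ℕ) : zeta R K b ∈ Cs R := by
  intro k
  rcases le_or_gt k K with h | h
  · obtain ⟨n, hn⟩ := zeta_mem_Zs_pow (R := R) h
    refine ⟨0, n, 0, len_pos k, len_pos k, ?_⟩
    rw [pow_zero, one_mul, mul_one]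
    exact hn b
  · refine ⟨len K, 0, 0, len_strictMono h, len_pos k, ?_⟩
    rw [pow_zero, pow_zero, mul_one, mul_one]
    exact zeta_mem_Vs K b

lemma dl_one_submodule {f : T R} (hf : f ∈ (1 : Submodule R (T R))) (x : Bool) : dl x f = 0 := by
  rw [Submodule.mem_one] at hf
  obtain ⟨a, rfl⟩ := hf
  rw [Algebra.algebraMap_eq_smul_one, map_smul, dl_one, smul_zero]

lemma dr_one_submodule {f : T R} (hf : f ∈ (1 : Submodule R (T R))) (x : Bool) : dr x f = 0 := by
  rw [Submodule.mem_one] at hf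
  obtain ⟨a, rfl⟩ := hf
  rw [Algebra.algebraMap_eq_smul_one, map_smul, dr_one, smul_zero]

lemma dl_mem_Cs {f : T R} (hf : f ∈ Cs R) (x : Bool) : dl x f ∈ Cs R := by
  intro k
  obtain ⟨e, i, e', he, he', hfk⟩ := hf k
  cases e with
  | succ e =>
    refine ⟨e, i, e', by omega, he', ?_⟩
    rw [pow_succ', mul_assoc, mul_assoc] at hfk
    rw [mul_assoc]
    exact dl_Vs_mul hfk x
  | zero =>
    rw [pow_zero, one_mul] at hfk
    cases i with
    | succ i =>
      obtain ⟨l, hl⟩ : ∃ l, len k = l + 1 := ⟨len k - 1, by have := len_pos k; omega⟩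
      refine ⟨l, i, e', by omega, he', ?_⟩
      rw [pow_succ', mul_assoc] at hfk
      have h1 : f ∈ Vs R ^ (l + 1) * (Zs R k ^ i * Vs R ^ e') := by
        rw [← hl]
        exact mul_le_mul' (Zs_le k) le_rfl hfk
      rw [pow_succ', mul_assoc] at h1
      rw [mul_assoc]
      exact dl_Vs_mul h1 x
    | zero =>
      rw [pow_zero, one_mul] at hfk
      cases e' with
      | succ e' =>
        refine ⟨0, 0, e', he, by omega, ?_⟩
        rw [pow_succ'] at hfk
        rw [pow_zero, pow_zero, one_mul, one_mul]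
        exact dl_Vs_mul hfk x
      | zero =>
        refine ⟨0, 0, 0, he, he', ?_⟩
        rw [pow_zero] at hfk
        rw [dl_one_submodule hfk]
        exact Submodule.zero_mem _

lemma dr_mem_Cs {f : T R} (hf : f ∈ Cs R) (x : Bool) : dr x f ∈ Cs R := by
  intro k
  obtain ⟨e, i, e', he, he', hfk⟩ := hf k
  cases e' with
  | succ e' =>
    refine ⟨e, i, e', he, by omega, ?_⟩
    rw [pow_succ, ← mul_assoc] at hfk
    exact dr_mul_Vs hfk x
  | zero =>
    rw [pow_zero, mul_one] at hfk
    cases i with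
    | succ i =>
      obtain ⟨l, hl⟩ : ∃ l, len k = l + 1 := ⟨len k - 1, by have := len_pos k; omega⟩
      refine ⟨e, i, l, he, by omega, ?_⟩
      rw [pow_succ, ← mul_assoc] at hfk
      have h1 : f ∈ Vs R ^ e * Zs R k ^ i * Vs R ^ (l + 1) := by
        rw [← hl]
        exact mul_le_mul' le_rfl (Zs_le k) hfk
      rw [pow_succ, ← mul_assoc] at h1
      exact dr_mul_Vs h1 x
    | zero =>
      rw [pow_zero, mul_one] at hfk
      cases e with
      | succ e =>
        refine ⟨e, 0, 0, by omega, he', ?_⟩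
        rw [pow_succ] at hfk
        rw [pow_zero, pow_zero, mul_one, mul_one]
        exact dr_mul_Vs hfk x
      | zero =>
        refine ⟨0, 0, 0, he, he', ?_⟩
        rw [pow_zero] at hfk
        rw [dr_one_submodule hfk]
        exact Submodule.zero_mem _

lemma exists_mem_Vs_pow {f : T R} (hf : f ∈ Cs R) : ∃ m, f ∈ Vs R ^ m := by
  obtain ⟨e, i, e', he, he', hfk⟩ := hf 0
  refine ⟨e + i + e', ?_⟩
  rw [pow_add, pow_add]
  have h1 := Zs_le (R := R) 0
  rw [len_zero, pow_one] at h1
  have h2 : Zs R 0 ^ i ≤ Vs R ^ i := pow_le_pow_left' h1 i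
  have h3 : Vs R ^ e * Zs R 0 ^ i * Vs R ^ e' ≤ Vs R ^ e * Vs R ^ i * Vs R ^ e' :=
    mul_le_mul' (mul_le_mul' le_rfl h2) le_rfl
  exact h3 hfk

lemma Vs_pow_le (n : ℕ) : Vs R ^ n ≤ grd R FreeMonoid.length n := by
  induction n with
  | zero =>
    rw [pow_zero]
    exact Submodule.one_le.mpr (one_mem_grd FreeMonoid.length_one)
  | succ n ih =>
    rw [pow_succ]
    rw [Submodule.mul_le]
    intro s hs t ht
    apply grd_mul length_additive (ih hs)
    have : Vs R ≤ grd R FreeMonoid.length 1 := by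
      rw [Vs, Submodule.span_le]
      rintro _ ⟨x, rfl⟩
      intro w hw
      classical
      rw [ltr, coeff_single, Finsupp.single_apply] at hw
      by_cases h : FreeMonoid.of x = w
      · rw [← h, FreeMonoid.length_of]
      · rw [if_neg h] at hw
        exact absurd rfl hw
    exact this ht

lemma dl_mem_Vs_pow {m : ℕ} {f : T R} (hf : f ∈ Vs R ^ (m + 1)) (x : Bool) :
    dl x f ∈ Vs R ^ m := by
  rw [pow_succ'] at hf
  exact dl_Vs_mul hf x

lemma dr_mem_Vs_pow {m : ℕ} {f : T R} (hf : f ∈ Vs R ^ (m + 1)) (x : Bool) :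
    dr x f ∈ Vs R ^ m := by
  rw [pow_succ] at hf
  exact dr_mul_Vs hf x

end

end MP9a9528
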