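import Mathlib

/-!
Engel elements, orderable groups and right orderable groups.
-/

namespace MP9a9528

/-- the commutator `[x, y] = x⁻¹ y⁻¹ x y` -/
def comm {G : Type*} [Group G] (x y : G) : G := x⁻¹ * y⁻¹ * x * y

/-- the iterated commutator: `icomm x g 0 = x` and `icomm x g (n + 1) = [icomm x g n, g]` -/
def icomm {G : Type*} [Group G] (x g : G) : ℕ → G
  | 0 => x
  | n + 1 => comm (icomm x g n) g

/-- `g` is a (left) Engel element: for every `x` there is `n ≥ 1` with `[x, g, ..., g] = 1`
(`n` entries `g`) -/
def IsEngelElt {G : Type*} [Group G] (g : G) : Prop :=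
  ∀ x : G, ∃ n : ℕ, 1 ≤ n ∧ icomm x g n = 1

/-- `G` is orderable: it has a total order invariant under multiplication on both sides -/
def Orderable (G : Type) [Group G] : Prop :=
  ∃ _ : LinearOrder G, ∀ a b c : G, a ≤ b → a * c ≤ b * c ∧ c * a ≤ c * b

/-- `G` is right orderable: it has a total order invariant under right multiplication -/
def RightOrderable (G : Type) [Group G] : Prop :=
  ∃ _ : LinearOrder G, ∀ a b c : G, a ≤ b → a * c ≤ b * c

end MP9a9528
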