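import Pool.Agent.Lib.MP_9a9528_al.Defs

/-!
Engel elements, and a criterion for `1 + e` with `e ^ 2 = 0` to satisfy an Engel condition.
-/

namespace MP9a9528

lemma comm_one_left {G : Type*} [Group G] (g : G) : comm 1 g = 1 := by simp [comm]

lemma icomm_of_le {G : Type*} [Group G] {x g : G} {m n : ℕ} (h : m ≤ n) (hm : icomm x g m = 1) :
    icomm x g n = 1 := by
  induction n, h using Nat.le_induction with
  | base => exact hm
  | succ n _ ih => rw [icomm, ih, comm_one_left]

lemma map_icomm {G H : Type*} [Group G] [Group H] (φ : G →* H) (x g : G) (n : ℕ) :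
    φ (icomm x g n) = icomm (φ x) (φ g) n := by
  induction n with
  | zero => rfl
  | succ n ih => rw [icomm, icomm, ← ih, comm, comm, map_mul, map_mul, map_mul, map_inv, map_inv]

section

variable {A : Type*} [Ring A]

/-- additive span of the products of at least `n` factors, each equal to `e` or `e'` -/
def Sn (e e' : A) (n : ℕ) : AddSubgroup A :=
  AddSubgroup.closure {x | ∃ l : List A, (∀ y ∈ l, y = e ∨ y = e') ∧ n ≤ l.length ∧ l.prod = x}

variable {e e' : A}

lemma Sn_mono {m n : ℕ} (h : m ≤ n) : Sn e e' n ≤ Sn e e' m := by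
  apply AddSubgroup.closure_mono
  rintro x ⟨l, h1, h2, h3⟩
  exact ⟨l, h1, h.trans h2, h3⟩

lemma one_mem_Sn : (1 : A) ∈ Sn e e' 0 :=
  AddSubgroup.subset_closure ⟨[], by simp, by simp, by simp⟩

lemma e_mem_Sn : e ∈ Sn e e' 1 :=
  AddSubgroup.subset_closure ⟨[e], by simp, by simp, by simp⟩

lemma e'_mem_Sn : e' ∈ Sn e e' 1 :=
  AddSubgroup.subset_closure ⟨[e'], by simp, by simp, by simp⟩

lemma mul_mem_Sn {m n : ℕ} {x y : A} (hx : x ∈ Sn e e' m) (hy : y ∈ Sn e e' n) :
    x * y ∈ Sn e e' (m + n) := by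
  unfold Sn at hx hy
  induction hx using AddSubgroup.closure_induction with
  | mem x hx =>
    induction hy using AddSubgroup.closure_induction with
    | mem y hy =>
      obtain ⟨l, h1, h2, rfl⟩ := hx
      obtain ⟨l', h1', h2', rfl⟩ := hy
      refine AddSubgroup.subset_closure ⟨l ++ l', ?_, ?_, ?_⟩
      · intro y hy
        rcases List.mem_append.mp hy with h | h
        · exact h1 y h
        · exact h1' y h
      · rw [List.length_append]; omega
      · rw [List.prod_append]
    | zero => rw [mul_zero]; exact AddSubgroup.zero_mem _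
    | add a b _ _ ha hb => rw [mul_add]; exact AddSubgroup.add_mem _ ha hb
    | neg a _ ha => rw [mul_neg]; exact AddSubgroup.neg_mem _ ha
  | zero => rw [zero_mul]; exact AddSubgroup.zero_mem _
  | add a b _ _ ha hb => rw [add_mul]; exact AddSubgroup.add_mem _ ha hb
  | neg a _ ha => rw [neg_mul]; exact AddSubgroup.neg_mem _ ha

/-- alternating products -/
def alt (e e' : A) : ℕ → A
  | 0 => 1
  | n + 1 => e * alt e' e n

lemma alt_succ (e e' : A) (n : ℕ) : alt e e' (n + 1) = e * alt e' e n := by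
  cases n <;> rfl

lemma alt_two_mul (e e' : A) (N k : ℕ) : alt e e' (2 * N + k) = (e * e') ^ N * alt e e' k := by
  induction N with
  | zero => simp
  | succ N ih =>
    rw [show 2 * (N + 1) + k = (2 * N + k) + 1 + 1 by ring, alt_succ, alt_succ, ih, pow_succ',
      mul_assoc, mul_assoc]

lemma prod_eq_alt (he : e * e = 0) (he' : e' * e' = 0) (l : List A)
    (hl : ∀ y ∈ l, y = e ∨ y = e') :
    l.prod = 0 ∨ l.prod = alt e e' l.length ∨ l.prod = alt e' e l.length := by
  induction l with
  | nil => right; left; rfl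
  | cons x l ih =>
    rw [List.prod_cons, List.length_cons]
    have hx := hl x (by simp)
    have ih' := ih fun y hy => hl y (by simp [hy])
    rcases ih' with h | h | h
    · left; rw [h, mul_zero]
    · rcases hx with rfl | rfl
      · rw [h]
        cases hn : l.length with
        | zero => right; left; rw [alt_succ]; rfl
        | succ n => left; rw [alt_succ, ← mul_assoc, he, zero_mul]
      · right; right; rw [h, alt_succ]
    · rcases hx with rfl | rfl
      · right; left; rw [h, alt_succ]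
      · rw [h]
        cases hn : l.length with
        | zero => right; right; rw [alt_succ]; rfl
        | succ n => left; rw [alt_succ, ← mul_assoc, he', zero_mul]

lemma Sn_eq_zero (he : e * e = 0) (he' : e' * e' = 0) {N : ℕ} (hN : (e * e') ^ N = 0) {x : A}
    (hx : x ∈ Sn e e' (2 * N + 1)) : x = 0 := by
  have : Sn e e' (2 * N + 1) ≤ ⊥ := by
    rw [Sn, AddSubgroup.closure_le]
    rintro x ⟨l, h1, h2, rfl⟩
    obtain ⟨k, hk⟩ := Nat.exists_eq_add_of_le h2
    have a1 : alt e e' l.length = 0 := by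
      rw [hk, add_assoc, alt_two_mul, hN, zero_mul]
    have a2 : alt e' e l.length = 0 := by
      rw [hk, show 2 * N + 1 + k = (2 * N + k) + 1 by ring, alt_succ, alt_two_mul, hN, zero_mul,
        mul_zero]
    rcases prod_eq_alt he he' l h1 with h | h | h
    · exact h
    · exact h.trans a1
    · exact h.trans a2
  exact this hx

/-- the criterion -/
theorem icomm_eq_one {g w : Aˣ} (hg : (g : A) = 1 + e) (he : e * e = 0) {N : ℕ}
    (hN : (e * ((w⁻¹ : Aˣ) * e * w)) ^ N = 0) : icomm w g (2 * N + 1) = 1 := by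
  set e' : A := (w⁻¹ : Aˣ) * e * w with he'def
  have he' : e' * e' = 0 := by
    rw [he'def]
    calc ((w⁻¹ : Aˣ) : A) * e * w * ((w⁻¹ : Aˣ) * e * w)
        = (w⁻¹ : Aˣ) * e * (w * (w⁻¹ : Aˣ)) * e * w := by noncomm_ring
      _ = 0 := by
        rw [Units.mul_inv, mul_one, mul_assoc ((w⁻¹ : Aˣ) : A) e e, he, mul_zero, zero_mul]
  have hginv : ((g⁻¹ : Aˣ) : A) = 1 - e := by
    apply Units.inv_eq_of_mul_eq_one_right
    rw [hg]
    have : (1 + e) * (1 - e) = 1 - e * e := by noncomm_ring
    rw [this, he, sub_zero]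
  have hconj : ((w⁻¹ : Aˣ) : A) * (g : A) * w = 1 + e' := by
    rw [hg, mul_add, mul_one, add_mul, Units.inv_mul]
  have hconj' : ((w⁻¹ : Aˣ) : A) * ((g⁻¹ : Aˣ) : A) * w = 1 - e' := by
    rw [hginv, mul_sub, mul_one, sub_mul, Units.inv_mul]
  have m1 : (1 : A) ∈ Sn e e' 0 := one_mem_Sn
  have me : e ∈ Sn e e' 1 := e_mem_Sn
  have me' : e' ∈ Sn e e' 1 := e'_mem_Sn
  have me0 : e ∈ Sn e e' 0 := Sn_mono (Nat.zero_le 1) me
  have me0' : e' ∈ Sn e e' 0 := Sn_mono (Nat.zero_le 1) me'
  have mg : (g : A) ∈ Sn e e' 0 := by rw [hg]; exact add_mem m1 me0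
  have mgi : ((g⁻¹ : Aˣ) : A) ∈ Sn e e' 0 := by rw [hginv]; exact sub_mem m1 me0
  have key : ∀ n : ℕ, ((icomm w g (n + 1) : Aˣ) : A) ∈ Sn e e' 0 ∧
      (((icomm w g (n + 1))⁻¹ : Aˣ) : A) ∈ Sn e e' 0 ∧
      ((icomm w g (n + 1) : Aˣ) : A) - 1 ∈ Sn e e' (n + 1) := by
    intro n
    induction n with
    | zero =>
      have e1 : ((icomm w g (0 + 1) : Aˣ) : A) = (1 - e') * (1 + e) := by
        rw [icomm, icomm, comm, Units.val_mul, Units.val_mul, Units.val_mul, hconj', hg]
      have e2 : (((icomm w g (0 + 1))⁻¹ : Aˣ) : A) = (1 - e) * (1 + e') := by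
        rw [icomm, icomm, comm]
        have : (w⁻¹ * g⁻¹ * w * g)⁻¹ = g⁻¹ * (w⁻¹ * g * w) := by group
        rw [this, Units.val_mul, Units.val_mul, Units.val_mul, hconj, hginv]
      refine ⟨?_, ?_, ?_⟩
      · rw [e1]
        exact mul_mem_Sn (m := 0) (n := 0) (sub_mem m1 me0') (add_mem m1 me0)
      · rw [e2]
        exact mul_mem_Sn (m := 0) (n := 0) (sub_mem m1 me0) (add_mem m1 me0')
      · rw [e1]
        have : (1 - e') * (1 + e) - 1 = e - e' - e' * e := by noncomm_ring
        rw [this]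
        exact sub_mem (sub_mem me me') (mul_mem_Sn (m := 1) (n := 0) me' me0)
    | succ n ih =>
      obtain ⟨h1, h2, h3⟩ := ih
      set u := icomm w g (n + 1) with hu
      have e1 : icomm w g (n + 1 + 1) = u⁻¹ * g⁻¹ * u * g := rfl
      refine ⟨?_, ?_, ?_⟩
      · rw [e1, Units.val_mul, Units.val_mul, Units.val_mul]
        exact mul_mem_Sn (m := 0) (n := 0) (mul_mem_Sn (m := 0) (n := 0)
          (mul_mem_Sn (m := 0) (n := 0) h2 mgi) h1) mg
      · rw [e1]
        have : (u⁻¹ * g⁻¹ * u * g)⁻¹ = g⁻¹ * u⁻¹ * g * u := by group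
        rw [this, Units.val_mul, Units.val_mul, Units.val_mul]
        exact mul_mem_Sn (m := 0) (n := 0) (mul_mem_Sn (m := 0) (n := 0)
          (mul_mem_Sn (m := 0) (n := 0) mgi h2) mg) h1
      · have e2 : ((u⁻¹ * g⁻¹ * u * g : Aˣ) : A) - 1
            = ((u⁻¹ : Aˣ) : A) * ((g⁻¹ : Aˣ) : A) * (((u : A) - 1) * e - e * ((u : A) - 1)) := by
          have e3 : ((u : A) - 1) * e - e * ((u : A) - 1) = (u : A) * g - g * u := by
            rw [hg]; noncomm_ring
          rw [e3, mul_sub, Units.val_mul, Units.val_mul, Units.val_mul]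
          have e4 : ((u⁻¹ : Aˣ) : A) * ((g⁻¹ : Aˣ) : A) * ((g : A) * u) = 1 := by
            rw [mul_assoc, ← mul_assoc ((g⁻¹ : Aˣ) : A), Units.inv_mul, one_mul, Units.inv_mul]
          rw [e4]
          noncomm_ring
        rw [e1, e2]
        have h4 : ((u : A) - 1) * e - e * ((u : A) - 1) ∈ Sn e e' (n + 1 + 1) := by
          refine sub_mem (mul_mem_Sn h3 me) ?_
          have := mul_mem_Sn me h3
          rwa [add_comm] at this
        have := mul_mem_Sn (mul_mem_Sn h2 mgi) h4
        rwa [zero_add, zero_add] at this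
  have h := Sn_eq_zero he he' hN (key (2 * N)).2.2
  rw [sub_eq_zero] at h
  exact Units.ext h

end

end MP9a9528
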