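import Mathlib

/-!
The free associative ring on two letters, as the monoid algebra of the free monoid,
with left and right letter derivatives.
-/

namespace MP9a9528

open MonoidAlgebra

/-- words in two letters -/
abbrev Wd := FreeMonoid Bool

/-- the free associative algebra on two letters -/
abbrev T (R : Type) [CommRing R] := MonoidAlgebra R Wd

lemma wd_left (w : Wd) : w = 1 ∨ ∃ (x : Bool) (v : Wd), w = FreeMonoid.of x * v := by
  cases w using FreeMonoid.casesOn with
  | one => exact Or.inl rfl
  | of_mul x xs => exact Or.inr ⟨x, xs, rfl⟩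

lemma wd_right (w : Wd) : w = 1 ∨ ∃ (v : Wd) (x : Bool), w = v * FreeMonoid.of x := by
  rcases wd_left w.reverse with h | ⟨x, v, h⟩
  · left
    have := congrArg FreeMonoid.reverse h
    rw [FreeMonoid.reverse_reverse] at this
    rw [this]; rfl
  · right
    have := congrArg FreeMonoid.reverse h
    rw [FreeMonoid.reverse_reverse, FreeMonoid.reverse_mul, FreeMonoid.reverse_of] at this
    exact ⟨_, _, this⟩

lemma of_mul_ne_one (x : Bool) (w : Wd) : FreeMonoid.of x * w ≠ 1 := by
  intro h
  have := congrArg FreeMonoid.length h
  simp at this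

lemma mul_of_ne_one (x : Bool) (w : Wd) : w * FreeMonoid.of x ≠ 1 := by
  intro h
  have := congrArg FreeMonoid.length h
  simp at this

lemma of_mul_inj {x y : Bool} {v w : Wd} :
    FreeMonoid.of x * v = FreeMonoid.of y * w ↔ x = y ∧ v = w := by
  constructor
  · intro h
    have h' : x :: FreeMonoid.toList v = y :: FreeMonoid.toList w := h
    rw [List.cons.injEq] at h'
    exact ⟨h'.1, h'.2⟩
  · rintro ⟨rfl, rfl⟩; rfl

lemma mul_of_inj {x y : Bool} {v w : Wd} :
    v * FreeMonoid.of x = w * FreeMonoid.of y ↔ v = w ∧ x = y := by
  constructor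
  · intro h
    have h' := congrArg FreeMonoid.reverse h
    rw [FreeMonoid.reverse_mul, FreeMonoid.reverse_mul, FreeMonoid.reverse_of,
      FreeMonoid.reverse_of, of_mul_inj] at h'
    refine ⟨?_, h'.1⟩
    have := congrArg FreeMonoid.reverse h'.2
    rwa [FreeMonoid.reverse_reverse, FreeMonoid.reverse_reverse] at this
  · rintro ⟨rfl, rfl⟩; rfl

section

variable {R : Type} [CommRing R]

/-- left derivative with respect to a letter -/
noncomputable def dl (x : Bool) : T R →ₗ[R] T R where
  toFun t := ofCoeff (t.coeff.comapDomain (fun w => FreeMonoid.of x * w)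
    (fun a _ b _ h => (of_mul_inj.mp h).2))
  map_add' s t := by
    ext w
    rfl
  map_smul' a t := by
    ext w
    rfl

/-- right derivative with respect to a letter -/
noncomputable def dr (x : Bool) : T R →ₗ[R] T R where
  toFun t := ofCoeff (t.coeff.comapDomain (fun w => w * FreeMonoid.of x)
    (fun a _ b _ h => (mul_of_inj.mp h).1))
  map_add' s t := by
    ext w
    rfl
  map_smul' a t := by
    ext w
    rfl

@[simp] lemma dl_coeff (x : Bool) (t : T R) (w : Wd) :
    (dl x t).coeff w = t.coeff (FreeMonoid.of x * w) := rfl

@[simp] lemma dr_coeff (x : Bool) (t : T R) (w : Wd) :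
    (dr x t).coeff w = t.coeff (w * FreeMonoid.of x) := rfl

lemma dl_single_one (x : Bool) (a : R) : dl x (single (1 : Wd) a) = 0 := by
  ext w
  rw [dl_coeff, coeff_single, Finsupp.single_eq_of_ne (of_mul_ne_one x w)]
  rfl

lemma dr_single_one (x : Bool) (a : R) : dr x (single (1 : Wd) a) = 0 := by
  ext w
  rw [dr_coeff, coeff_single, Finsupp.single_eq_of_ne (mul_of_ne_one x w)]
  rfl

lemma dl_single (x y : Bool) (u : Wd) (a : R) :
    dl x (single (FreeMonoid.of y * u) a) = if x = y then single u a else 0 := by
  ext w
  rw [dl_coeff, coeff_single]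
  classical
  rw [Finsupp.single_apply]
  by_cases h : x = y
  · subst h
    simp [Finsupp.single_apply]
  · have : ¬ (FreeMonoid.of y * u = FreeMonoid.of x * w) := by
      rw [of_mul_inj]; rintro ⟨h1, _⟩; exact h h1.symm
    simp [this, h]

lemma dr_single (x y : Bool) (u : Wd) (a : R) :
    dr x (single (u * FreeMonoid.of y) a) = if x = y then single u a else 0 := by
  ext w
  rw [dr_coeff, coeff_single]
  classical
  rw [Finsupp.single_apply]
  by_cases h : x = y
  · subst h
    simp [Finsupp.single_apply]
  · have : ¬ (u * FreeMonoid.of y = w * FreeMonoid.of x) := by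
      rw [mul_of_inj]; rintro ⟨_, h1⟩; exact h h1.symm
    simp [this, h]

/-- Leibniz rule for the left derivative -/
lemma dl_mul (x : Bool) (s t : T R) : dl x (s * t) = dl x s * t + s.coeff 1 • dl x t := by
  induction s using MonoidAlgebra.induction_linear with
  | zero => simp
  | add f g hf hg => rw [add_mul, map_add, hf, hg, map_add, coeff_add, Finsupp.add_apply]
                     rw [add_mul, add_smul]; abel
  | single u a =>
    induction t using MonoidAlgebra.induction_linear with
    | zero => simp
    | add f g hf hg => rw [mul_add, map_add, hf, hg, map_add, mul_add, smul_add]; abel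
    | single v b =>
      rw [single_mul_single]
      rcases wd_left u with rfl | ⟨y, u', rfl⟩
      · rw [dl_single_one, one_mul, zero_mul, zero_add]
        have : (single (1 : Wd) a).coeff 1 = a := by simp
        rw [this, ← map_smul, smul_single, smul_eq_mul]
      · rw [mul_assoc, dl_single, dl_single]
        have : (single (FreeMonoid.of y * u') a).coeff 1 = 0 := by
          rw [coeff_single, Finsupp.single_eq_of_ne (of_mul_ne_one y u').symm]
        rw [this, zero_smul, add_zero]
        split_ifs with h
        · rw [single_mul_single]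
        · rw [zero_mul]

/-- Leibniz rule for the right derivative -/
lemma dr_mul (x : Bool) (s t : T R) : dr x (s * t) = s * dr x t + t.coeff 1 • dr x s := by
  induction s using MonoidAlgebra.induction_linear with
  | zero => simp
  | add f g hf hg => rw [add_mul, map_add, hf, hg, map_add, add_mul, smul_add]; abel
  | single u a =>
    induction t using MonoidAlgebra.induction_linear with
    | zero => simp
    | add f g hf hg => rw [mul_add, map_add, hf, hg, map_add, mul_add, coeff_add,
                         Finsupp.add_apply, add_smul]; abel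
    | single v b =>
      rw [single_mul_single]
      rcases wd_right v with rfl | ⟨v', y, rfl⟩
      · rw [dr_single_one, mul_one, mul_zero, zero_add]
        have : (single (1 : Wd) b).coeff 1 = b := by simp
        rw [this, ← map_smul, smul_single, smul_eq_mul, mul_comm]
      · rw [← mul_assoc, dr_single, dr_single]
        have : (single (v' * FreeMonoid.of y) b).coeff 1 = 0 := by
          rw [coeff_single, Finsupp.single_eq_of_ne (mul_of_ne_one y v').symm]
        rw [this, zero_smul, add_zero]
        split_ifs with h
        · rw [single_mul_single]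
        · rw [mul_zero]

lemma dl_one (x : Bool) : dl x (1 : T R) = 0 := dl_single_one x 1

lemma dr_one (x : Bool) : dr x (1 : T R) = 0 := dr_single_one x 1

/-- the letters as elements of the free algebra -/
noncomputable def ltr (R : Type) [CommRing R] (x : Bool) : T R := single (FreeMonoid.of x) 1

lemma dl_ltr_mul (x y : Bool) (t : T R) : dl x (ltr R y * t) = if x = y then t else 0 := by
  rw [dl_mul]
  have h1 : dl x (ltr R y) = if x = y then 1 else 0 := by
    have := dl_single x y (1 : Wd) (1 : R)
    rw [mul_one] at this
    exact this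
  have h2 : (ltr R y).coeff 1 = 0 := by
    rw [ltr, coeff_single, Finsupp.single_eq_of_ne]
    exact fun h => FreeMonoid.of_ne_one y h.symm
  rw [h1, h2, zero_smul, add_zero]
  split_ifs <;> simp

lemma dr_mul_ltr (x y : Bool) (t : T R) : dr x (t * ltr R y) = if x = y then t else 0 := by
  rw [dr_mul]
  have h1 : dr x (ltr R y) = if x = y then 1 else 0 := by
    have := dr_single x y (1 : Wd) (1 : R)
    rw [one_mul] at this
    exact this
  have h2 : (ltr R y).coeff 1 = 0 := by
    rw [ltr, coeff_single, Finsupp.single_eq_of_ne]
    exact fun h => FreeMonoid.of_ne_one y h.symm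
  rw [h1, h2, zero_smul, add_zero]
  split_ifs <;> simp

lemma coeff_mul_one (s t : T R) : (s * t).coeff 1 = s.coeff 1 * t.coeff 1 := by
  induction s using MonoidAlgebra.induction_linear with
  | zero => simp
  | add f g hf hg => rw [add_mul, coeff_add, Finsupp.add_apply, hf, hg, coeff_add,
                       Finsupp.add_apply, add_mul]
  | single u a =>
    induction t using MonoidAlgebra.induction_linear with
    | zero => simp
    | add f g hf hg => rw [mul_add, coeff_add, Finsupp.add_apply, hf, hg, coeff_add,
                         Finsupp.add_apply, mul_add]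
    | single v b =>
      classical
      rw [single_mul_single, coeff_single, coeff_single, coeff_single, Finsupp.single_apply,
        Finsupp.single_apply, Finsupp.single_apply]
      rcases wd_left u with rfl | ⟨y, u', rfl⟩
      · simp
      · rw [mul_assoc, if_neg (of_mul_ne_one _ _), if_neg (of_mul_ne_one _ _), zero_mul]

/-- augmentation -/
noncomputable def aug : T R →+* R where
  toFun t := t.coeff 1
  map_one' := by simp
  map_mul' := coeff_mul_one
  map_zero' := by simp
  map_add' s t := by simp

lemma aug_apply (t : T R) : aug t = t.coeff 1 := rfl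

/-- support in words whose value under an additive length function is `n` -/
def grd (R : Type) [CommRing R] (χ : Wd → ℕ) (n : ℕ) : Submodule R (T R) where
  carrier := {t | ∀ w, t.coeff w ≠ 0 → χ w = n}
  zero_mem' := by intro w h; simp at h
  add_mem' := by
    intro s t hs ht w hw
    by_cases h : s.coeff w = 0
    · apply ht
      intro h'
      apply hw
      rw [coeff_add, Finsupp.add_apply, h, h', add_zero]
    · exact hs w h
  smul_mem' := by
    intro a t ht w hw
    apply ht
    intro h
    apply hw
    rw [coeff_smul, Finsupp.smul_apply, h, smul_zero]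

lemma mem_grd {χ : Wd → ℕ} {n : ℕ} {t : T R} :
    t ∈ grd R χ n ↔ ∀ w, t.coeff w ≠ 0 → χ w = n := Iff.rfl

lemma exists_of_coeff_mul_ne {s t : T R} {w : Wd} (h : (s * t).coeff w ≠ 0) :
    ∃ u v, u * v = w ∧ s.coeff u ≠ 0 ∧ t.coeff v ≠ 0 := by
  classical
  have h1 : w ∈ (s * t).coeff.support := Finsupp.mem_support_iff.mpr h
  have h2 := support_coeff_mul_subset s t h1
  rw [Finset.mem_mul] at h2
  obtain ⟨u, hu, v, hv, huv⟩ := h2
  exact ⟨u, v, huv, Finsupp.mem_support_iff.mp hu, Finsupp.mem_support_iff.mp hv⟩

lemma grd_mul {χ : Wd → ℕ} (hχ : ∀ u v, χ (u * v) = χ u + χ v) {m n : ℕ} {s t : T R}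
    (hs : s ∈ grd R χ m) (ht : t ∈ grd R χ n) : s * t ∈ grd R χ (m + n) := by
  intro w hw
  obtain ⟨u, v, rfl, hu, hv⟩ := exists_of_coeff_mul_ne hw
  rw [hχ, hs u hu, ht v hv]

lemma one_mem_grd {χ : Wd → ℕ} (h1 : χ 1 = 0) : (1 : T R) ∈ grd R χ 0 := by
  intro w hw
  classical
  rw [one_def, coeff_single, Finsupp.single_apply] at hw
  by_cases h : 1 = w
  · rw [← h, h1]
  · rw [if_neg h] at hw
    exact absurd rfl hw

end

end MP9a9528
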