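import Mathlib

/-!
The standard polynomial of a finite family of ring elements, and its vanishing in finite algebras.
-/

namespace MP9a9528

/-- the standard polynomial: the alternating sum of all products of the family -/
def std {S : Type*} [Ring S] {m : ℕ} (Y : Fin m → S) : S :=
  ∑ σ : Equiv.Perm (Fin m), ((Equiv.Perm.sign σ : ℤˣ) : ℤ) • (List.ofFn (fun i => Y (σ i))).prod

lemma map_std {S S' : Type*} [Ring S] [Ring S'] (f : S →+* S') {m : ℕ} (Y : Fin m → S) :
    f (std Y) = std (fun i => f (Y i)) := by
  unfold std
  rw [map_sum]
  refine Finset.sum_congr rfl fun σ _ => ?_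
  rw [map_zsmul, map_list_prod, List.map_ofFn]
  rfl

lemma std_eq_zero {R S : Type*} [CommRing R] [IsDomain R] [Ring S] [Algebra R S]
    [Module.Finite R S] [Module.IsTorsionFree R S] {m : ℕ} (hm : Module.finrank R S < m)
    (Y : Fin m → S) : std Y = 0 := by
  have h := AlternatingMap.map_linearDependent (K := R)
    (MultilinearMap.alternatization (MultilinearMap.mkPiAlgebraFin R m S)) Y (by
      intro hli
      have := hli.fintype_card_le_finrank
      rw [Fintype.card_fin] at this
      omega)
  rw [MultilinearMap.alternatization_apply] at h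
  rw [← h]
  unfold std
  refine Finset.sum_congr rfl fun σ _ => ?_
  rw [MultilinearMap.domDomCongr_apply, MultilinearMap.mkPiAlgebraFin_apply]
  rfl

end MP9a9528
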