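import Pool.Agent.Lib.MP_9a9528_al.Pair
import Pool.Agent.Lib.MP_9a9528_al.Std

/-!
For an element `r` without constant term the functionals `f ↦ pair f (r ^ M)` all factor through one
representation in a finite free algebra over the polynomial ring.
-/

namespace MP9a9528

open MonoidAlgebra

/-- words of length less than `n` -/
abbrev St (n : ℕ) := {w : Wd // w.length < n}

instance (n : ℕ) : Finite (St n) := List.finite_length_lt Bool n

noncomputable instance (n : ℕ) : Fintype (St n) := Fintype.ofFinite _

section

variable {P : Type} [CommRing P]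

/-- functions on short words as elements of the free algebra -/
noncomputable def emb (n : ℕ) : (St n → P) →ₗ[P] T P where
  toFun u := ∑ s : St n, single s.1 (u s)
  map_add' u v := by simp [Finset.sum_add_distrib]
  map_smul' a u := by simp [Finset.smul_sum]

lemma emb_coeff {n : ℕ} (u : St n → P) (w : Wd) :
    (emb n u).coeff w = if h : w.length < n then u ⟨w, h⟩ else 0 := by
  classical
  have : (emb n u).coeff w = ∑ s : St n, if s.1 = w then u s else 0 := by
    change (∑ s : St n, single s.1 (u s)).coeff w = _
    rw [coeff_sum, Finsupp.finsetSum_apply]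
    refine Finset.sum_congr rfl fun s _ => ?_
    rw [coeff_single, Finsupp.single_apply]
  rw [this]
  split_ifs with h
  · rw [Finset.sum_eq_single (⟨w, h⟩ : St n)]
    · simp
    · intro s _ hs
      rw [if_neg]
      intro h'
      exact hs (Subtype.ext h')
    · intro h'; exact absurd (Finset.mem_univ _) h'
  · refine Finset.sum_eq_zero fun s _ => ?_
    rw [if_neg]
    intro h'
    exact h (h' ▸ s.2)

/-- restriction to short words -/
noncomputable def res (n : ℕ) : T P →ₗ[P] (St n → P) where
  toFun t s := t.coeff s.1
  map_add' u v := by ext s; simp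
  map_smul' a u := by ext s; simp

lemma emb_res {n : ℕ} {t : T P} (h : ∀ w, t.coeff w ≠ 0 → w.length < n) :
    emb n (res n t) = t := by
  ext w
  rw [emb_coeff]
  split_ifs with hw
  · rfl
  · by_contra hne
    exact hw (h w (Ne.symm hne))

/-- evaluation of the coefficient at the empty word -/
noncomputable def c1 (P : Type) [CommRing P] : T P →ₗ[P] P where
  toFun t := t.coeff 1
  map_add' s t := by simp
  map_smul' a t := by simp

lemma c1_apply (t : T P) : c1 P t = t.coeff 1 := rfl

/-- the operator of a letter -/
noncomputable def opr (n : ℕ) (c : T P) (y : P) (x : Bool) : Module.End P (St n → P) :=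
  (res n) ∘ₗ ((dr x) ∘ₗ (emb n) + ((c1 P).smulRight (y • dr x c)) ∘ₗ (emb n))

lemma emb_opr {n : ℕ} {c : T P} (hc : ∀ w, c.coeff w ≠ 0 → w.length ≤ n) (y : P)
    (x : Bool) (u : St n → P) :
    emb n (opr n c y x u) = dr x (emb n u) + (emb n u).coeff 1 • (y • dr x c) := by
  have : opr n c y x u = res n (dr x (emb n u) + (emb n u).coeff 1 • (y • dr x c)) := rfl
  rw [this]
  apply emb_res
  intro w hw
  by_contra hcon
  push Not at hcon
  apply hw
  have h1 : (dr x (emb n u)).coeff w = 0 := by
    rw [dr_coeff, emb_coeff, dif_neg]
    rw [FreeMonoid.length_mul]; omega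
  have h2 : (dr x c).coeff w = 0 := by
    rw [dr_coeff]
    by_contra hne
    have := hc _ hne
    rw [FreeMonoid.length_mul, FreeMonoid.length_of] at this
    omega
  rw [coeff_add, Finsupp.add_apply, h1, coeff_smul, Finsupp.smul_apply, coeff_smul,
    Finsupp.smul_apply, h2, smul_zero, smul_zero, add_zero]

/-- the representation -/
noncomputable def rho (n : ℕ) (c : T P) (y : P) : T P →ₐ[P] Module.End P (St n → P) :=
  MonoidAlgebra.lift P (Module.End P (St n → P)) Wd (FreeMonoid.lift (opr n c y))

lemma rho_of_mul {n : ℕ} {c : T P} {y : P} (v : Wd) (x : Bool) :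
    rho n c y (single (v * FreeMonoid.of x) 1) = rho n c y (single v 1) * opr n c y x := by
  have e : (single (v * FreeMonoid.of x) 1 : T P) = single v 1 * single (FreeMonoid.of x) 1 := by
    rw [single_mul_single, one_mul]
  rw [e, map_mul]
  congr 1
  rw [rho, MonoidAlgebra.lift_single, one_smul, FreeMonoid.lift_eval_of]

lemma coeff_pow_mul_eq_zero {c : T P} (hc : c.coeff 1 = 0) (M : ℕ) (t : T P) (w : Wd)
    (hw : w.length < M) : (c ^ M * t).coeff w = 0 := by
  induction M generalizing w with
  | zero => omega
  | succ M ih =>
    by_contra hne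
    rw [pow_succ', mul_assoc] at hne
    obtain ⟨u, v, rfl, hu, hv⟩ := exists_of_coeff_mul_ne hne
    have hu1 : 0 < u.length := by
      rw [Nat.pos_iff_ne_zero]
      intro h
      rw [FreeMonoid.length_eq_zero] at h
      rw [h] at hu
      exact hu hc
    have hv1 : ¬ v.length < M := fun h => hv (ih v h)
    rw [FreeMonoid.length_mul] at hw
    omega

lemma coeff_pow_one {c : T P} (hc : c.coeff 1 = 0) (M : ℕ) :
    (c ^ (M + 1)).coeff 1 = 0 := by
  rw [pow_succ, coeff_mul_one, hc, mul_zero]

lemma dr_pow_succ {c : T P} (hc : c.coeff 1 = 0) (M : ℕ) (x : Bool) :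
    dr x (c ^ (M + 1)) = c ^ M * dr x c := by
  rw [pow_succ, dr_mul, hc, zero_smul, add_zero]

theorem rho_word {n : ℕ} {c : T P} (hc : ∀ w, c.coeff w ≠ 0 → w.length ≤ n)
    (hc1 : c.coeff 1 = 0) (y : P) (L : ℕ) (w : Wd) (u : St n → P) (hw : w.length < L) :
    (emb n (rho n c y (single w 1) u)).coeff 1
      = ∑ M ∈ Finset.range L, y ^ M * (c ^ M * emb n u).coeff w := by
  induction L generalizing w u with
  | zero => omega
  | succ L ih =>
    rcases wd_right w with rfl | ⟨v, x, rfl⟩
    · have e1 : rho n c y (single 1 1) = 1 := by rw [← one_def, map_one]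
      rw [e1, Module.End.one_apply, Finset.sum_range_succ']
      have : ∀ M ∈ Finset.range L, y ^ (M + 1) * (c ^ (M + 1) * emb n u).coeff 1 = 0 := by
        intro M _
        rw [coeff_mul_one, coeff_pow_one hc1, zero_mul, mul_zero]
      rw [Finset.sum_eq_zero this, zero_add, pow_zero, pow_zero, one_mul, one_mul]
    · have hv : v.length < L := by
        rw [FreeMonoid.length_mul, FreeMonoid.length_of] at hw; omega
      rw [rho_of_mul, Module.End.mul_apply, ih v _ hv, emb_opr hc]
      have e1 : ∀ M, (c ^ M * emb n u).coeff (v * FreeMonoid.of x)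
          = (c ^ M * dr x (emb n u)).coeff v + (emb n u).coeff 1 * (dr x (c ^ M)).coeff v := by
        intro M
        rw [← dr_coeff, dr_mul, coeff_add, Finsupp.add_apply, coeff_smul, Finsupp.smul_apply,
          smul_eq_mul]
      have e2 : ∀ M, (c ^ M * (dr x (emb n u) + (emb n u).coeff 1 • (y • dr x c))).coeff v
          = (c ^ M * dr x (emb n u)).coeff v
            + (emb n u).coeff 1 * (y * (c ^ M * dr x c).coeff v) := by
        intro M
        rw [mul_add, coeff_add, Finsupp.add_apply, mul_smul_comm, mul_smul_comm, coeff_smul,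
          Finsupp.smul_apply, coeff_smul, Finsupp.smul_apply, smul_eq_mul, smul_eq_mul]
      simp only [e1, e2]
      simp only [mul_add, Finset.sum_add_distrib]
      congr 1
      · rw [Finset.sum_range_succ, coeff_pow_mul_eq_zero hc1 L _ v hv, mul_zero, add_zero]
      · rw [Finset.sum_range_succ', pow_zero (M := T P), dr_one, coeff_zero, Finsupp.zero_apply,
          mul_zero, mul_zero, add_zero]
        refine Finset.sum_congr rfl fun M _ => ?_
        rw [dr_pow_succ hc1, pow_succ]
        ring

end

open Polynomial in
/-- all functionals `f ↦ pair f (r ^ M)` factor through one ring in which long standard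
polynomials vanish -/
theorem exists_rep {R : Type} [CommRing R] [IsDomain R] (r : T R) (hr : r.coeff 1 = 0) :
    ∃ (S : Type) (_ : Ring S) (ρ : T R →+* S) (D : ℕ),
      (∀ m, D < m → ∀ Y : Fin m → S, std Y = 0) ∧
      ∀ (f : T R) (M : ℕ), ρ f = 0 → pair f (r ^ M) = 0 := by
  classical
  set n : ℕ := r.coeff.support.sup FreeMonoid.length + 1 with hn
  have hn0 : 0 < n := by omega
  set c : T R[X] := mapRingHom Wd (C : R →+* R[X]) r with hcdef
  have hcc : ∀ w, c.coeff w = C (r.coeff w) := fun w => coeff_mapRingHom _ _ _
  have hc : ∀ w, c.coeff w ≠ 0 → w.length ≤ n := by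
    intro w hw
    rw [hcc] at hw
    have : w ∈ r.coeff.support := by
      rw [Finsupp.mem_support_iff]
      intro h
      apply hw
      rw [h, map_zero]
    have := Finset.le_sup (f := FreeMonoid.length) this
    omega
  have hc1 : c.coeff 1 = 0 := by rw [hcc, hr, map_zero]
  refine ⟨Module.End R[X] (St n → R[X]), inferInstance,
    (rho n c X).toRingHom.comp (mapRingHom Wd (C : R →+* R[X])),
    Module.finrank R[X] (Module.End R[X] (St n → R[X])), ?_, ?_⟩
  · intro m hm Y
    exact std_eq_zero (R := R[X]) hm Y
  · intro f M hf
    set e1 : St n → R[X] := res n 1 with he1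
    have hemb : emb n e1 = 1 := by
      apply emb_res
      intro w hw
      rw [one_def, coeff_single, Finsupp.single_apply] at hw
      by_cases h : 1 = w
      · rw [← h, FreeMonoid.length_one]; exact hn0
      · rw [if_neg h] at hw; exact absurd rfl hw
    have key : ∀ g : T R, ((emb n (rho n c X (mapRingHom Wd (C : R →+* R[X]) g) e1)).coeff 1).coeff M
        = pair g (r ^ M) := by
      intro g
      induction g using MonoidAlgebra.induction_linear with
      | zero => simp
      | add f g hf hg =>
        rw [map_add, map_add, LinearMap.add_apply, map_add, MonoidAlgebra.coeff_add, Finsupp.add_apply,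
          Polynomial.coeff_add, hf, hg, pair_add_left]
      | single w a =>
        have e2 : mapRingHom Wd (C : R →+* R[X]) (single w a) = C a • (single w 1 : T R[X]) := by
          ext v
          rw [coeff_mapRingHom, coeff_single, smul_single, smul_eq_mul, mul_one, coeff_single,
            Finsupp.single_apply, Finsupp.single_apply]
          split_ifs <;> simp
        rw [e2, map_smul, LinearMap.smul_apply, map_smul, MonoidAlgebra.coeff_smul, Finsupp.smul_apply,
          smul_eq_mul, coeff_C_mul, pair_single,
          rho_word hc hc1 X (w.length + M + 1) w e1 (by omega), hemb,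
          Polynomial.finsetSum_coeff]
        congr 1
        have e3 : ∀ M', (X ^ M' * (c ^ M' * (1 : T R[X])).coeff w).coeff M
            = if M' = M then (r ^ M').coeff w else 0 := by
          intro M'
          have : (c ^ M' * (1 : T R[X])).coeff w = C ((r ^ M').coeff w) := by
            rw [mul_one, hcdef, ← map_pow, coeff_mapRingHom]
          rw [this, Polynomial.coeff_mul_C, Polynomial.coeff_X_pow]
          by_cases h : M' = M
          · subst h; simp
          · rw [if_neg h, if_neg (Ne.symm h), zero_mul]
        rw [Finset.sum_congr rfl fun M' _ => e3 M', Finset.sum_ite_eq' (Finset.range _) M,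
          if_pos (Finset.mem_range.mpr (by omega))]
    have := key f
    have hf' : rho n c X (mapRingHom Wd (C : R →+* R[X]) f) = 0 := hf
    rw [hf'] at this
    rw [← this]
    simp

end MP9a9528
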