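import Pool.Agent.Lib.MP_9a9528_al.Cfam
import Pool.Agent.Lib.MP_9a9528_al.Rep

/-!
The quotient ring `B` by the annihilator of the family of functionals; its augmentation ideal is nil.
-/

namespace MP9a9528

open MonoidAlgebra

variable (R : Type) [CommRing R]

/-- the annihilator of the family, a two sided ideal -/
noncomputable def Id : Ideal (T R) where
  carrier := {t | ∀ f ∈ Cs R, pair f t = 0}
  zero_mem' := by intro f _; exact pair_zero_right f
  add_mem' := by
    intro s t hs ht f hf
    rw [pair_add_right, hs f hf, ht f hf, add_zero]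
  smul_mem' := by
    intro s t ht
    rw [smul_eq_mul]
    induction s using MonoidAlgebra.induction_linear with
    | zero => intro f _; rw [zero_mul]; exact pair_zero_right f
    | add u v hu hv => intro f hf; rw [add_mul, pair_add_right, hu f hf, hv f hf, add_zero]
    | single w a =>
      have e : (single w a : T R) = a • single w 1 := by rw [smul_single, smul_eq_mul, mul_one]
      intro f hf
      rw [e, smul_mul_assoc, pair_smul_right]
      have key : ∀ w : Wd, ∀ f ∈ Cs R, pair f (single w 1 * t) = 0 := by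
        intro w
        induction w using FreeMonoid.inductionOn' with
        | one => intro f hf; rw [← one_def, one_mul]; exact ht f hf
        | of_mul x v ih =>
          intro f hf
          have e2 : (single (FreeMonoid.of x * v) 1 : T R) = ltr R x * single v 1 := by
            rw [ltr, single_mul_single, one_mul]
          rw [e2, mul_assoc, pair_ltr_mul]
          exact ih _ (dl_mem_Cs hf x)
      rw [key w f hf, mul_zero]

variable {R}

lemma mem_Id {t : T R} : t ∈ Id R ↔ ∀ f ∈ Cs R, pair f t = 0 := Iff.rfl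

instance : (Id R).IsTwoSided := by
  refine ⟨?_⟩
  intro t s ht
  induction s using MonoidAlgebra.induction_linear with
  | zero => rw [mul_zero]; exact (Id R).zero_mem
  | add u v hu hv => rw [mul_add]; exact (Id R).add_mem hu hv
  | single w a =>
    have e : (single w a : T R) = a • single w 1 := by rw [smul_single, smul_eq_mul, mul_one]
    intro f hf
    rw [e, mul_smul_comm, pair_smul_right]
    have key : ∀ n : ℕ, ∀ w : Wd, w.length = n → ∀ f ∈ Cs R, pair f (t * single w 1) = 0 := by
      intro n
      induction n with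
      | zero =>
        intro w hw f hf
        rw [FreeMonoid.length_eq_zero.mp hw, ← one_def, mul_one]
        exact ht f hf
      | succ n ih =>
        intro w hw f hf
        rcases wd_right w with rfl | ⟨v, x, rfl⟩
        · rw [FreeMonoid.length_one] at hw; omega
        · have e2 : (single (v * FreeMonoid.of x) 1 : T R) = single v 1 * ltr R x := by
            rw [ltr, single_mul_single, one_mul]
          rw [e2, ← mul_assoc, pair_mul_ltr]
          rw [FreeMonoid.length_mul, FreeMonoid.length_of] at hw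
          exact ih v (by omega) _ (dr_mem_Cs hf x)
    rw [key _ w rfl f hf, mul_zero]

variable (R) in
/-- the quotient ring -/
abbrev Bq := T R ⧸ Id R

/-- the quotient map -/
noncomputable def qm : T R →+* Bq R := Ideal.Quotient.mk (Id R)

lemma qm_surjective : Function.Surjective (qm (R := R)) := Ideal.Quotient.mk_surjective

lemma qm_eq_zero {t : T R} : qm t = 0 ↔ ∀ f ∈ Cs R, pair f t = 0 := by
  rw [qm, Ideal.Quotient.eq_zero_iff_mem]
  exact mem_Id

/-- the augmentation of the quotient -/
noncomputable def augB : Bq R →+* R := Ideal.Quotient.lift (Id R) aug (by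
  intro t ht
  rw [aug_apply, ← pair_one_left]
  exact ht 1 one_mem_Cs)

@[simp] lemma augB_qm (t : T R) : augB (qm t) = t.coeff 1 := by
  rw [augB, qm, Ideal.Quotient.lift_mk, aug_apply]

/-- coordinates -/
noncomputable def cd (f : T R) (b : Bq R) : R :=
  pair f (Function.surjInv (qm_surjective (R := R)) b)

lemma cd_qm {f : T R} (hf : f ∈ Cs R) (t : T R) : cd f (qm t) = pair f t := by
  have h : qm (Function.surjInv (qm_surjective (R := R)) (qm t) - t) = 0 := by
    rw [map_sub, Function.surjInv_eq (qm_surjective (R := R)), sub_self]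
  rw [qm_eq_zero] at h
  have := h f hf
  rw [sub_eq_add_neg, pair_add_right, pair_neg_right] at this
  unfold cd
  exact eq_of_sub_eq_zero (by rw [sub_eq_add_neg]; exact this)

lemma cd_add {f : T R} (hf : f ∈ Cs R) (a b : Bq R) : cd f (a + b) = cd f a + cd f b := by
  obtain ⟨s, rfl⟩ := qm_surjective a
  obtain ⟨t, rfl⟩ := qm_surjective b
  rw [← map_add, cd_qm hf, cd_qm hf, cd_qm hf, pair_add_right]

lemma cd_neg {f : T R} (hf : f ∈ Cs R) (a : Bq R) : cd f (-a) = - cd f a := by
  obtain ⟨s, rfl⟩ := qm_surjective a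
  rw [← map_neg, cd_qm hf, cd_qm hf, pair_neg_right]

lemma cd_sub {f : T R} (hf : f ∈ Cs R) (a b : Bq R) : cd f (a - b) = cd f a - cd f b := by
  rw [sub_eq_add_neg, cd_add hf, cd_neg hf, sub_eq_add_neg]

lemma cd_zero {f : T R} (hf : f ∈ Cs R) : cd f (0 : Bq R) = 0 := by
  rw [← map_zero (qm (R := R)), cd_qm hf, pair_zero_right]

lemma cd_ltr_mul {f : T R} (hf : f ∈ Cs R) (x : Bool) (b : Bq R) :
    cd f (qm (ltr R x) * b) = cd (dl x f) b := by
  obtain ⟨t, rfl⟩ := qm_surjective b
  rw [← map_mul, cd_qm hf, cd_qm (dl_mem_Cs hf x), pair_ltr_mul]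

lemma cd_mul_ltr {f : T R} (hf : f ∈ Cs R) (x : Bool) (b : Bq R) :
    cd f (b * qm (ltr R x)) = cd (dr x f) b := by
  obtain ⟨t, rfl⟩ := qm_surjective b
  rw [← map_mul, cd_qm hf, cd_qm (dr_mem_Cs hf x), pair_mul_ltr]

lemma eq_of_cd {a b : Bq R} (h : ∀ m, ∀ f ∈ Cs R, f ∈ Vs R ^ m → cd f a = cd f b) : a = b := by
  obtain ⟨s, rfl⟩ := qm_surjective a
  obtain ⟨t, rfl⟩ := qm_surjective b
  rw [← sub_eq_zero, ← map_sub, qm_eq_zero]
  intro f hf
  obtain ⟨m, hm⟩ := exists_mem_Vs_pow hf
  have := h m f hf hm
  rw [cd_qm hf, cd_qm hf] at this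
  rw [sub_eq_add_neg, pair_add_right, pair_neg_right, this]
  exact add_neg_cancel _

lemma rho_zero_of_mem {S : Type} [Ring S] (ρ : T R →+* S) {P Q : Submodule R (T R)}
    (hP : ∀ z ∈ P, ρ z = 0) {f : T R} (hf : f ∈ P * Q) : ρ f = 0 := by
  refine Submodule.mul_induction_on hf ?_ ?_
  · intro u hu v _
    rw [map_mul, hP u hu, zero_mul]
  · intro u v hu hv
    rw [map_add, hu, hv, add_zero]

lemma rho_zero_of_mem' {S : Type} [Ring S] (ρ : T R →+* S) {P Q : Submodule R (T R)}
    (hP : ∀ z ∈ P, ρ z = 0) {f : T R} (hf : f ∈ Q * P) : ρ f = 0 := by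
  refine Submodule.mul_induction_on hf ?_ ?_
  · intro u _ v hv
    rw [map_mul, hP v hv, mul_zero]
  · intro u v hu hv
    rw [map_add, hu, hv, add_zero]

/-- the augmentation ideal is nil -/
theorem nil [IsDomain R] (b : Bq R) (hb : augB b = 0) : ∃ M, b ^ M = 0 := by
  obtain ⟨r, rfl⟩ := qm_surjective b
  rw [augB_qm] at hb
  obtain ⟨S, _, ρ, D, hstd, hker⟩ := exists_rep r hb
  have hz : ∀ b, ρ (zeta R (D + 1) b) = 0 := by
    intro b
    rw [zeta, map_mul, map_std, hstd (mm D) (by unfold mm; omega), zero_mul]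
  have hZ : ∀ z ∈ Zs R (D + 1), ρ z = 0 := by
    intro z hz'
    induction hz' using Submodule.span_induction with
    | mem v hv => obtain ⟨b, rfl⟩ := hv; exact hz b
    | zero => exact map_zero ρ
    | add u v _ _ hu hv => rw [map_add, hu, hv, add_zero]
    | smul a u _ hu => rw [← algebraMap_smul (T R) a u, smul_eq_mul, map_mul, hu, mul_zero]
  refine ⟨2 * len (D + 1), ?_⟩
  rw [← map_pow, qm_eq_zero]
  intro f hf
  obtain ⟨e, i, e', he, he', hfk⟩ := hf (D + 1)
  cases i with
  | zero =>
    rw [pow_zero, mul_one, ← pow_add] at hfk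
    have hg := Vs_pow_le _ hfk
    apply pair_eq_zero_of_forall
    intro w
    by_cases hw : w.length = e + e'
    · right
      have := coeff_pow_mul_eq_zero hb (2 * len (D + 1)) 1 w (by omega)
      rwa [mul_one] at this
    · left
      by_contra hne
      exact hw (hg w hne)
  | succ i =>
    apply hker
    rw [pow_succ] at hfk
    have h1 : f ∈ (Vs R ^ e * Zs R (D + 1) ^ i) * Zs R (D + 1) * Vs R ^ e' := by
      rw [mul_assoc (Vs R ^ e)]
      exact hfk
    refine rho_zero_of_mem ρ ?_ h1
    intro z hz'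
    exact rho_zero_of_mem' ρ hZ hz'

end MP9a9528
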