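import Pool.Agent.Lib.MP_9a9528_al.Top
import Pool.Agent.Lib.MP_9a9528_al.Engel
import Pool.Agent.Lib.MP_9a9528_al.Quot

/-!
The matrix group over the quotient ring: two Engel elements whose product is not Engel.
-/

namespace MP9a9528

open MonoidAlgebra

/-- matrices over the quotient ring -/
abbrev MB := Matrix (Fin 3) (Fin 3) (Bq ℤ)

/-- reduction of matrices -/
noncomputable def pim : MT →+* MB := (qm (R := ℤ)).mapMatrix

lemma pim_apply (X : MT) (i j : Fin 3) : pim X i j = qm (X i j) := rfl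

/-- reduction of units -/
noncomputable def pu : MTˣ →* MBˣ := Units.map (pim : MT →* MB)

lemma pu_val (u : MTˣ) : ((pu u : MBˣ) : MB) = pim u := rfl

/-- the group -/
noncomputable def Gs : Subgroup MBˣ := Subgroup.closure {pu u1, pu u2, pu uw}

/-- the augmentation is lower triangular -/
def LT (X : MB) : Prop := ∀ i j : Fin 3, i < j → augB (X i j) = 0

lemma LT_mul {X Y : MB} (hX : LT X) (hY : LT Y) : LT (X * Y) := by
  intro i j hij
  rw [Matrix.mul_apply, map_sum]
  refine Finset.sum_eq_zero fun k _ => ?_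
  rw [map_mul]
  rcases lt_or_ge i k with h | h
  · rw [hX i k h, zero_mul]
  · rw [hY k j (lt_of_le_of_lt h hij), mul_zero]

lemma LT_pim {X : MT} (h : ∀ i j : Fin 3, i < j → (X i j).coeff 1 = 0) : LT (pim X) := by
  intro i j hij
  rw [pim_apply, augB_qm]
  exact h i j hij

lemma LT_one : LT 1 := by
  intro i j hij
  rw [Matrix.one_apply_ne hij.ne, map_zero]

lemma te1_apply {i j : Fin 3} (h : i < j) : te1 i j = 0 := by
  fin_cases i <;> fin_cases j <;> first | rfl | exact absurd h (by decide)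

lemma te2_apply {i j : Fin 3} (h : i < j) : te2 i j = 0 := by
  fin_cases i <;> fin_cases j <;> first | rfl | exact absurd h (by decide)

lemma tc_coeff (i j : Fin 3) : (tc i j).coeff 1 = 0 := by
  have h1 := ltr_coeff_one (R := ℤ) true
  have h2 : (ltr ℤ true + ltr ℤ false).coeff 1 = 0 := by
    rw [coeff_add, Finsupp.add_apply, ltr_coeff_one, ltr_coeff_one, add_zero]
  fin_cases i <;> fin_cases j <;> first | rfl | exact h1 | exact h2

lemma one_coeff {i j : Fin 3} (h : i < j) : ((1 : MT) i j).coeff 1 = 0 := by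
  rw [Matrix.one_apply_ne h.ne]; rfl

lemma Gs_LT {z : MBˣ} (hz : z ∈ Gs) : LT z ∧ LT ((z⁻¹ : MBˣ) : MB) := by
  unfold Gs at hz
  induction hz using Subgroup.closure_induction with
  | mem z hz =>
    simp only [Set.mem_insert_iff, Set.mem_singleton_iff] at hz
    rcases hz with rfl | rfl | rfl
    · rw [← map_inv, pu_val, pu_val, u1, sq_val, sq_inv_val]
      constructor
      · apply LT_pim
        intro i j h
        rw [Matrix.add_apply, te1_apply h, add_zero, one_coeff h]
      · apply LT_pim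
        intro i j h
        rw [Matrix.sub_apply, te1_apply h, sub_zero, one_coeff h]
    · rw [← map_inv, pu_val, pu_val, u2, sq_val, sq_inv_val]
      constructor
      · apply LT_pim
        intro i j h
        rw [Matrix.add_apply, te2_apply h, add_zero, one_coeff h]
      · apply LT_pim
        intro i j h
        rw [Matrix.sub_apply, te2_apply h, sub_zero, one_coeff h]
    · rw [← map_inv, pu_val, pu_val, uw, sq_val, sq_inv_val]
      constructor
      · apply LT_pim
        intro i j h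
        rw [Matrix.add_apply, coeff_add, Finsupp.add_apply, tc_coeff, add_zero, one_coeff h]
      · apply LT_pim
        intro i j h
        rw [Matrix.sub_apply, coeff_sub, Finsupp.sub_apply, tc_coeff, sub_zero, one_coeff h]
  | one => rw [inv_one]; exact ⟨LT_one, LT_one⟩
  | mul x y _ _ hx hy =>
    rw [mul_inv_rev]
    exact ⟨LT_mul hx.1 hy.1, LT_mul hy.2 hx.2⟩
  | inv x _ hx => rw [inv_inv]; exact ⟨hx.2, hx.1⟩

lemma pow_single {A : Type*} [Ring A] (i j : Fin 3) (a : A) (Z : Matrix (Fin 3) (Fin 3) A)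
    (n : ℕ) : (Matrix.single i j a * Z) ^ (n + 1)
      = Matrix.single i j (a * (Z j i * a) ^ n) * Z := by
  induction n with
  | zero => rw [zero_add, pow_one, pow_zero, mul_one]
  | succ n ih =>
    rw [pow_succ, ih]
    have : Matrix.single i j (a * (Z j i * a) ^ n) * Z * (Matrix.single i j a * Z)
        = (Matrix.single i j (a * (Z j i * a) ^ n) * Z * Matrix.single i j a) * Z := by
      rw [mul_assoc, mul_assoc, mul_assoc]
    rw [this, Matrix.single_mul_mul_single]
    congr 2
    rw [pow_succ, ← mul_assoc, ← mul_assoc]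

theorem engel_of_lower {i j : Fin 3} (hij : j < i) (u : MBˣ)
    (hu : (u : MB) = 1 + Matrix.single i j 1) {z : MBˣ} (hz : z ∈ Gs) :
    ∃ n, 1 ≤ n ∧ icomm z u n = 1 := by
  have h1 := (Gs_LT hz).1 j i hij
  obtain ⟨M, hM⟩ := nil ((z : MB) j i * ((z⁻¹ : MBˣ) : MB) j i) (by rw [map_mul, h1, zero_mul])
  refine ⟨2 * (M + 1) + 1, by omega, ?_⟩
  apply icomm_eq_one hu (single_sq hij.ne')
  have e : Matrix.single i j (1 : Bq ℤ) * (((z⁻¹ : MBˣ) : MB) * Matrix.single i j 1 * (z : MB))
      = Matrix.single i j (((z⁻¹ : MBˣ) : MB) j i) * (z : MB) := by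
    rw [← mul_assoc, ← mul_assoc, Matrix.single_mul_mul_single, one_mul, mul_one]
  rw [e, pow_single, hM, mul_zero, Matrix.single_zero, zero_mul]

lemma pim_single (i j : Fin 3) : pim (Matrix.single i j 1) = Matrix.single i j 1 := by
  ext k l
  rw [pim_apply, Matrix.single_apply, Matrix.single_apply]
  split_ifs
  · exact map_one _
  · exact map_zero _

theorem engel1 {z : MBˣ} (hz : z ∈ Gs) : ∃ n, 1 ≤ n ∧ icomm z (pu u1) n = 1 := by
  apply engel_of_lower (i := 1) (j := 0) (by decide) _ _ hz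
  rw [pu_val, u1, sq_val, map_add, map_one, te1, pim_single]

theorem engel2 {z : MBˣ} (hz : z ∈ Gs) : ∃ n, 1 ≤ n ∧ icomm z (pu u2) n = 1 := by
  apply engel_of_lower (i := 2) (j := 1) (by decide) _ _ hz
  rw [pu_val, u2, sq_val, map_add, map_one, te2, pim_single]

/-- conjugation form of the iterated commutators -/
lemma conj_icomm {G : Type*} [Group G] (w g : G) (z : ℕ → G) (h0 : z 0 = w⁻¹)
    (hs : ∀ n, z (n + 1) = z n * g * (z n)⁻¹) (n : ℕ) :
    z (n + 1) = g ^ (n + 1) * (icomm w g (n + 1))⁻¹ * (g ^ n)⁻¹ := by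
  induction n with
  | zero =>
    rw [hs, h0, icomm, icomm, comm]
    group
  | succ n ih =>
    have e : icomm w g (n + 1 + 1) = comm (icomm w g (n + 1)) g := rfl
    rw [hs, ih, e, comm, pow_succ g (n + 1)]
    have e2 : g ^ (n + 1) = g ^ n * g := pow_succ g n
    have e3 : g ^ n * g = g * g ^ n := (pow_succ g n).symm.trans (pow_succ' g n)
    generalize icomm w g (n + 1) = v
    have e4 : (g ^ n)⁻¹ * g = g * (g ^ n)⁻¹ := by
      rw [inv_mul_eq_iff_eq_mul, ← mul_assoc, e3, mul_assoc, mul_inv_cancel, mul_one]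
    rw [e2]
    simp only [mul_inv_rev, inv_inv]
    calc g ^ n * g * v⁻¹ * (g ^ n)⁻¹ * g * (g ^ n * (v * (g⁻¹ * (g ^ n)⁻¹)))
        = g ^ n * g * v⁻¹ * ((g ^ n)⁻¹ * g) * (g ^ n * (v * (g⁻¹ * (g ^ n)⁻¹))) := by
          simp only [mul_assoc]
      _ = _ := by rw [e4]; group

theorem not_engel : ¬ ∃ n, 1 ≤ n ∧ icomm (pu uw) (pu ug) n = 1 := by
  rintro ⟨n, hn, h⟩
  obtain ⟨m, rfl⟩ : ∃ m, n = m + 1 := ⟨n - 1, by omega⟩
  have hz : ∀ k, m + 1 ≤ k → pu (zt k) = pu ug := by
    intro k hk
    induction k, hk using Nat.le_induction with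
    | base =>
      have := conj_icomm (pu uw) (pu ug) (fun n => pu (zt n)) (map_inv pu uw)
        (fun n => by rw [zt, map_mul, map_mul, map_inv]) m
      simp only [h, inv_one, mul_one] at this
      rw [this, pow_succ', mul_assoc, mul_inv_cancel, mul_one]
    | succ k _ ih =>
      rw [zt, map_mul, map_mul, map_inv, ih, mul_assoc, mul_inv_cancel, mul_one]
  have h1 := hz (kap (m + 1)) (kap_strictMono.id_le (m + 1))
  have h2 : pim (zt (kap (m + 1))) 0 1 = pim ug 0 1 := by
    rw [← pu_val, ← pu_val, h1]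
  have h3 : (ug : MT) 0 1 = 0 := by rw [ug_val]; rfl
  rw [pim_apply, pim_apply, h3, map_zero, qm_eq_zero] at h2
  exact pair_zt (m + 1) (h2 _ (zeta_mem_Cs _ _))

end MP9a9528
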