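import Pool.Agent.Lib.MP_9a9528_al.Grp

/-!
A two sided invariant total order on the matrix group.
-/

namespace MP9a9528

open MonoidAlgebra

/-- the filtration of the matrix ring by vanishing of the coordinates of small weight -/
def Fl (n : ℕ) (D : MB) : Prop :=
  ∀ m, ∀ f ∈ Cs ℤ, f ∈ Vs ℤ ^ m → ∀ i j : Fin 3, 3 * m + i + (2 - j) < n → cd f (D i j) = 0

lemma Fl_mono {m n : ℕ} (h : m ≤ n) {D : MB} (hD : Fl n D) : Fl m D :=
  fun k f hf hk i j hw => hD k f hf hk i j (lt_of_lt_of_le hw h)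

lemma Fl_add {n : ℕ} {D E : MB} (hD : Fl n D) (hE : Fl n E) : Fl n (D + E) := by
  intro m f hf hm i j hw
  rw [Matrix.add_apply, cd_add hf, hD m f hf hm i j hw, hE m f hf hm i j hw, add_zero]

lemma Fl_neg {n : ℕ} {D : MB} (hD : Fl n D) : Fl n (-D) := by
  intro m f hf hm i j hw
  rw [Matrix.neg_apply, cd_neg hf, hD m f hf hm i j hw, neg_zero]

/-- multiplication by `X` on either side raises the filtration -/
def Rs (X : MB) : Prop := ∀ n D, Fl n D → Fl (n + 1) (X * D) ∧ Fl (n + 1) (D * X)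

lemma Rs_add {X Y : MB} (hX : Rs X) (hY : Rs Y) : Rs (X + Y) := by
  intro n D hD
  rw [add_mul, mul_add]
  exact ⟨Fl_add (hX n D hD).1 (hY n D hD).1, Fl_add (hX n D hD).2 (hY n D hD).2⟩

lemma Rs_neg {X : MB} (hX : Rs X) : Rs (-X) := by
  intro n D hD
  rw [neg_mul, mul_neg]
  exact ⟨Fl_neg (hX n D hD).1, Fl_neg (hX n D hD).2⟩

lemma Rs_mul {X Y : MB} (hX : Rs X) (hY : Rs Y) : Rs (X * Y) := by
  intro n D hD
  constructor
  · rw [mul_assoc]
    exact (hX n _ (Fl_mono (Nat.le_succ n) (hY n D hD).1)).1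
  · rw [← mul_assoc]
    exact (hY n _ (Fl_mono (Nat.le_succ n) (hX n D hD).2)).2

lemma Rs_zero : Rs 0 := by
  intro n D _
  rw [zero_mul, mul_zero]
  refine ⟨?_, ?_⟩ <;>
  · intro m f hf _ i j _
    rw [Matrix.zero_apply]
    exact cd_zero hf

lemma Rs_single {i j : Fin 3} (hij : j < i) : Rs (Matrix.single i j 1) := by
  have hij' : (j : ℕ) < i := hij
  have hi2 : (i : ℕ) < 3 := i.2
  intro n D hD
  constructor
  · intro m f hf hm k l hw
    by_cases hk : k = i
    · subst hk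
      rw [Matrix.single_mul_apply_same, one_mul]
      exact hD m f hf hm j l (by omega)
    · rw [Matrix.single_mul_apply_of_ne _ _ _ _ _ hk]
      exact cd_zero hf
  · intro m f hf hm k l hw
    by_cases hl : l = j
    · subst hl
      rw [Matrix.mul_single_apply_same, mul_one]
      exact hD m f hf hm k i (by omega)
    · rw [Matrix.mul_single_apply_of_ne _ _ _ _ _ hl]
      exact cd_zero hf

lemma cd_ltr_mul_zero {m : ℕ} {f : T ℤ} (hf : f ∈ Cs ℤ) (hm : f ∈ Vs ℤ ^ m) (x : Bool)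
    (b : Bq ℤ) (h : ∀ m', m = m' + 1 → ∀ f' ∈ Cs ℤ, f' ∈ Vs ℤ ^ m' → cd f' b = 0) :
    cd f (qm (ltr ℤ x) * b) = 0 := by
  rw [cd_ltr_mul hf]
  cases m with
  | zero =>
    rw [pow_zero] at hm
    rw [dl_one_submodule hm]
    exact pair_zero_left _
  | succ m => exact h m rfl _ (dl_mem_Cs hf x) (dl_mem_Vs_pow hm x)

lemma cd_mul_ltr_zero {m : ℕ} {f : T ℤ} (hf : f ∈ Cs ℤ) (hm : f ∈ Vs ℤ ^ m) (x : Bool)
    (b : Bq ℤ) (h : ∀ m', m = m' + 1 → ∀ f' ∈ Cs ℤ, f' ∈ Vs ℤ ^ m' → cd f' b = 0) :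
    cd f (b * qm (ltr ℤ x)) = 0 := by
  rw [cd_mul_ltr hf]
  cases m with
  | zero =>
    rw [pow_zero] at hm
    rw [dr_one_submodule hm]
    exact pair_zero_left _
  | succ m => exact h m rfl _ (dr_mem_Cs hf x) (dr_mem_Vs_pow hm x)

lemma pim_tc : pim tc = Matrix.single 0 1 (qm (ltr ℤ true))
    + (Matrix.single 0 2 (qm (ltr ℤ true)) + Matrix.single 0 2 (qm (ltr ℤ false))) := by
  ext i j
  rw [pim_apply]
  fin_cases i <;> fin_cases j <;> simp [tc]

lemma Rs_ltr (x : Bool) {i j : Fin 3} (hi : i = 0) : Rs (Matrix.single i j (qm (ltr ℤ x))) := by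
  have hj : (j : ℕ) < 3 := j.2
  subst hi
  intro n D hD
  constructor
  · intro m f hf hm k l hw
    have hl : (l : ℕ) < 3 := l.2
    by_cases hk : k = 0
    · subst hk
      rw [Matrix.single_mul_apply_same]
      refine cd_ltr_mul_zero hf hm x _ ?_
      rintro m' rfl f' hf' hm'
      refine hD m' f' hf' hm' j l ?_
      simp only [Fin.val_zero] at hw
      omega
    · rw [Matrix.single_mul_apply_of_ne _ _ _ _ _ hk]
      exact cd_zero hf
  · intro m f hf hm k l hw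
    by_cases hl : l = j
    · subst hl
      rw [Matrix.mul_single_apply_same]
      refine cd_mul_ltr_zero hf hm x _ ?_
      rintro m' rfl f' hf' hm'
      refine hD m' f' hf' hm' k 0 ?_
      simp only [Fin.val_zero]
      omega
    · rw [Matrix.mul_single_apply_of_ne _ _ _ _ _ hl]
      exact cd_zero hf

lemma Rs_tc : Rs (pim tc) := by
  rw [pim_tc]
  exact Rs_add (Rs_ltr _ rfl) (Rs_add (Rs_ltr _ rfl) (Rs_ltr _ rfl))

lemma Gs_Rs {z : MBˣ} (hz : z ∈ Gs) : Rs ((z : MB) - 1) ∧ Rs (((z⁻¹ : MBˣ) : MB) - 1) := by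
  unfold Gs at hz
  have key : ∀ (e : MT) (he : e * e = 0), Rs (pim e) →
      Rs (((pu (sq e he) : MBˣ) : MB) - 1) ∧ Rs ((((pu (sq e he))⁻¹ : MBˣ) : MB) - 1) := by
    intro e he hr
    rw [← map_inv, pu_val, pu_val, sq_val, sq_inv_val, map_add, map_sub, map_one]
    constructor
    · rw [add_sub_cancel_left]; exact hr
    · have : 1 - pim e - 1 = - pim e := by abel
      rw [this]
      exact Rs_neg hr
  induction hz using Subgroup.closure_induction with
  | mem z hz =>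
    simp only [Set.mem_insert_iff, Set.mem_singleton_iff] at hz
    rcases hz with rfl | rfl | rfl
    · exact key _ _ (by rw [te1, pim_single]; exact Rs_single (by decide))
    · exact key _ _ (by rw [te2, pim_single]; exact Rs_single (by decide))
    · exact key _ _ Rs_tc
  | one => rw [inv_one, Units.val_one, sub_self]; exact ⟨Rs_zero, Rs_zero⟩
  | mul x y _ _ hx hy =>
    have e : ∀ a b : MB, a * b - 1 = (a - 1) * (b - 1) + ((a - 1) + (b - 1)) := by
      intro a b; noncomm_ring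
    rw [mul_inv_rev, Units.val_mul, Units.val_mul, e, e]
    exact ⟨Rs_add (Rs_mul hx.1 hy.1) (Rs_add hx.1 hy.1),
      Rs_add (Rs_mul hy.2 hx.2) (Rs_add hy.2 hx.2)⟩
  | inv x _ hx => rw [inv_inv]; exact ⟨hx.2, hx.1⟩

instance : Countable (T ℤ) := by
  have : Function.Injective (fun t : T ℤ => t.coeff) := fun s t h => by
    ext w
    exact DFunLike.congr_fun h w
  exact this.countable

open Classical in
/-- all coordinates, ordered by weight -/
noncomputable def kp (e : ℕ → ℕ × T ℤ × Fin 3 × Fin 3) (z : MB) (p : ℕ ×ₗ ℕ) : ℤ :=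
  if (e (ofLex p).2).2.1 ∈ Cs ℤ ∧ (e (ofLex p).2).2.1 ∈ Vs ℤ ^ (e (ofLex p).2).1 ∧
      3 * (e (ofLex p).2).1 + (e (ofLex p).2).2.2.1 + (2 - (e (ofLex p).2).2.2.2) = (ofLex p).1
  then cd (e (ofLex p).2).2.1 (z (e (ofLex p).2).2.2.1 (e (ofLex p).2).2.2.2) else 0

variable {e : ℕ → ℕ × T ℤ × Fin 3 × Fin 3}

lemma kp_eq {c m : ℕ} {f : T ℤ} {i j : Fin 3} (hc : e c = (m, f, i, j)) (hf : f ∈ Cs ℤ)
    (hm : f ∈ Vs ℤ ^ m) (z : MB) :
    kp e z (toLex (3 * m + i + (2 - j), c)) = cd f (z i j) := by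
  unfold kp
  rw [if_pos]
  · simp only [ofLex_toLex, hc]
  · simp only [ofLex_toLex, hc]
    exact ⟨hf, hm, trivial⟩

lemma kp_inj (he : Function.Surjective e) : Function.Injective (kp e) := by
  intro z z' h
  ext i j
  apply eq_of_cd
  intro m f hf hm
  obtain ⟨c, hc⟩ := he (m, f, i, j)
  have := congrFun h (toLex (3 * m + i + (2 - j), c))
  rwa [kp_eq hc hf hm, kp_eq hc hf hm] at this

lemma kp_sub {x y x' y' : MB} {n : ℕ} (h : Fl (n + 1) ((y' - x') - (y - x))) {q : ℕ ×ₗ ℕ}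
    (hq : (ofLex q).1 ≤ n) : kp e y' q - kp e x' q = kp e y q - kp e x q := by
  unfold kp
  split_ifs with hcond
  · obtain ⟨h1, h2, h3⟩ := hcond
    have := h _ _ h1 h2 _ _ (by rw [h3]; omega)
    rw [Matrix.sub_apply, Matrix.sub_apply, Matrix.sub_apply, cd_sub h1, cd_sub h1, cd_sub h1]
      at this
    linarith
  · rfl

lemma Fl_of_kp (he : Function.Surjective e) {x y : MB} {p : ℕ ×ₗ ℕ}
    (h : ∀ q < p, kp e x q = kp e y q) : Fl (ofLex p).1 (y - x) := by
  intro m f hf hm i j hw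
  obtain ⟨c, hc⟩ := he (m, f, i, j)
  have h1 := h (toLex (3 * m + i + (2 - j), c)) (by
    rw [Prod.Lex.lt_iff]
    left
    exact hw)
  rw [kp_eq hc hf hm, kp_eq hc hf hm] at h1
  rw [Matrix.sub_apply, cd_sub hf, h1, sub_self]

/-- the strict order relation -/
def Ls (e : ℕ → ℕ × T ℤ × Fin 3 × Fin 3) (x y : MB) : Prop :=
  ∃ p, (∀ q < p, kp e x q = kp e y q) ∧ kp e x p < kp e y p

lemma Ls_congr {x y x' y' : MB} (he : Function.Surjective e) (h : Ls e x y)
    (hF : ∀ n, Fl n (y - x) → Fl (n + 1) ((y' - x') - (y - x))) : Ls e x' y' := by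
  obtain ⟨p, hp1, hp2⟩ := h
  have h1 := hF _ (Fl_of_kp he hp1)
  refine ⟨p, ?_, ?_⟩
  · intro q hq
    have h2 := kp_sub (e := e) h1 (q := q) (by
      rcases Prod.Lex.lt_iff.mp hq with h | h
      · exact h.le
      · exact h.1.le)
    rw [hp1 q hq, sub_self] at h2
    exact (sub_eq_zero.mp h2).symm
  · have h2 := kp_sub (e := e) h1 (q := p) le_rfl
    have h3 : 0 < kp e y p - kp e x p := sub_pos.mpr hp2
    rw [← h2] at h3
    exact sub_pos.mp h3

lemma Ls_mul_right (he : Function.Surjective e) {x y : MB} (h : Ls e x y) {z : MBˣ}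
    (hz : z ∈ Gs) : Ls e (x * (z : MB)) (y * (z : MB)) := by
  refine Ls_congr he h ?_
  intro n hn
  have e1 : (y * (z : MB) - x * (z : MB)) - (y - x) = (y - x) * ((z : MB) - 1) := by noncomm_ring
  rw [e1]
  exact ((Gs_Rs hz).1 n _ hn).2

lemma Ls_mul_left (he : Function.Surjective e) {x y : MB} (h : Ls e x y) {z : MBˣ}
    (hz : z ∈ Gs) : Ls e ((z : MB) * x) ((z : MB) * y) := by
  refine Ls_congr he h ?_
  intro n hn
  have e1 : ((z : MB) * y - (z : MB) * x) - (y - x) = ((z : MB) - 1) * (y - x) := by noncomm_ring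
  rw [e1]
  exact ((Gs_Rs hz).1 n _ hn).1

theorem exists_order : ∃ _ : LinearOrder Gs, ∀ a b c : Gs, a ≤ b → a * c ≤ b * c ∧ c * a ≤ c * b := by
  obtain ⟨e, he⟩ := exists_surjective_nat (ℕ × T ℤ × Fin 3 × Fin 3)
  have hinj : Function.Injective (fun z : Gs => (toLex (kp e ((z : MBˣ) : MB)) :
      Lex ((ℕ ×ₗ ℕ) → ℤ))) := by
    intro z z' h
    have h1 : kp e ((z : MBˣ) : MB) = kp e ((z' : MBˣ) : MB) := toLex.injective h
    exact Subtype.ext (Units.ext (kp_inj he h1))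
  let _ : LinearOrder Gs := LinearOrder.lift' (fun z : Gs => (toLex (kp e ((z : MBˣ) : MB)) :
      Lex ((ℕ ×ₗ ℕ) → ℤ))) hinj
  have hlt : ∀ a b : Gs, a < b ↔ Ls e ((a : MBˣ) : MB) ((b : MBˣ) : MB) := fun a b => Iff.rfl
  refine ⟨inferInstance, ?_⟩
  intro a b c hab
  rcases hab.eq_or_lt with rfl | h
  · exact ⟨le_rfl, le_rfl⟩
  · rw [hlt] at h
    have h1 : a * c < b * c := by
      rw [hlt, Subgroup.coe_mul, Subgroup.coe_mul, Units.val_mul, Units.val_mul]
      exact Ls_mul_right he h c.2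
    have h2 : c * a < c * b := by
      rw [hlt, Subgroup.coe_mul, Subgroup.coe_mul, Units.val_mul, Units.val_mul]
      exact Ls_mul_left he h c.2
    exact ⟨h1.le, h2.le⟩

end MP9a9528
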