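import Mathlib

/-!
The regular paperfolding sequence: `pf n` is `true` when the odd part of `n` is `1` mod `4`.
-/

namespace MP9a9528

/-- paperfolding sequence, indexed from `1` -/
def pf (n : ℕ) : Bool := decide ((n / 2 ^ (padicValNat 2 n)) % 4 = 1)

lemma pf_two_pow_mul (a h : ℕ) (hh : h % 2 = 1) : pf (2 ^ a * h) = decide (h % 4 = 1) := by
  have h0 : h ≠ 0 := by rintro rfl; simp at hh
  have hv : padicValNat 2 (2 ^ a * h) = a := by
    rw [padicValNat.mul (by positivity) h0, padicValNat.prime_pow,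
      padicValNat.eq_zero_of_not_dvd (by omega)]
    simp
  unfold pf
  rw [hv, Nat.mul_div_cancel_left _ (by positivity)]

lemma exists_pow_mul {n : ℕ} (hn : n ≠ 0) : ∃ a h, h % 2 = 1 ∧ n = 2 ^ a * h := by
  obtain ⟨k, m, hm, rfl⟩ := Nat.exists_eq_two_pow_mul_odd hn
  exact ⟨k, m, Nat.odd_iff.mp hm, rfl⟩

lemma pf_pow_mul (c n : ℕ) (hn : n ≠ 0) : pf (2 ^ c * n) = pf n := by
  obtain ⟨a, h, hh, rfl⟩ := exists_pow_mul hn
  rw [← mul_assoc, ← pow_add, pf_two_pow_mul _ _ hh, pf_two_pow_mul _ _ hh]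

lemma pf_one : pf 1 = true := by
  have := pf_two_pow_mul 0 1 rfl
  simpa using this

lemma pf_two_pow (c : ℕ) : pf (2 ^ c) = true := by
  have := pf_pow_mul c 1 one_ne_zero
  rw [mul_one] at this
  rw [this, pf_one]

/-- adding a multiple of `2 ^ (a+2)` does not change the value at a number of `2`-valuation `a` -/
lemma pf_add (a h c : ℕ) (hh : h % 2 = 1) : pf (2 ^ a * h + 2 ^ (a + 2) * c) = pf (2 ^ a * h) := by
  have e : 2 ^ a * h + 2 ^ (a + 2) * c = 2 ^ a * (h + 4 * c) := by ring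
  rw [e, pf_two_pow_mul _ _ (by omega), pf_two_pow_mul _ _ hh]
  congr 1
  have : (h + 4 * c) % 4 = h % 4 := by omega
  rw [this]

/-- adding a number of valuation one more changes the value -/
lemma pf_add_ne (a h h' : ℕ) (hh : h % 2 = 1) (hh' : h' % 2 = 1) :
    pf (2 ^ a * h + 2 ^ (a + 1) * h') ≠ pf (2 ^ a * h) := by
  have e : 2 ^ a * h + 2 ^ (a + 1) * h' = 2 ^ a * (h + 2 * h') := by ring
  rw [e, pf_two_pow_mul _ _ (by omega), pf_two_pow_mul _ _ hh]
  intro H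
  have := decide_eq_decide.mp H
  omega

/-- two blocks of length `2 ^ s` whose indices have the same parity agree except at the end -/
lemma pf_block {s c c' i : ℕ} (hc : c % 2 = c' % 2) (hi : 0 < i) (hi' : i < 2 ^ s) :
    pf (c * 2 ^ s + i) = pf (c' * 2 ^ s + i) := by
  wlog hle : c' ≤ c generalizing c c' with H
  · exact (H hc.symm (by omega)).symm
  obtain ⟨a, h, hh, rfl⟩ := exists_pow_mul (Nat.pos_iff_ne_zero.mp hi)
  have has : a < s := by
    by_contra hcon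
    push Not at hcon
    have h1 : 2 ^ s ≤ 2 ^ a := Nat.pow_le_pow_right (by norm_num) hcon
    have h2 : 1 ≤ h := by omega
    nlinarith [Nat.mul_le_mul h1 h2]
  obtain ⟨b, rfl⟩ := Nat.exists_eq_add_of_le has
  obtain ⟨d, hd⟩ : ∃ d, c = c' + 2 * d := ⟨(c - c') / 2, by omega⟩
  subst hd
  have e1 : (c' + 2 * d) * 2 ^ (a.succ + b) + 2 ^ a * h
      = 2 ^ a * (c' * 2 ^ (b + 1) + h) + 2 ^ (a + 2) * (2 ^ b * d) := by
    have : a.succ + b = a + (b + 1) := by omega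
    rw [this]; ring
  have e2 : c' * 2 ^ (a.succ + b) + 2 ^ a * h = 2 ^ a * (c' * 2 ^ (b + 1) + h) := by
    have : a.succ + b = a + (b + 1) := by omega
    rw [this]; ring
  rw [e1, e2]
  apply pf_add
  rw [pow_succ, ← mul_assoc]
  omega

end MP9a9528

namespace MP9a9528

lemma exists_pf_ne (m n₀ e : ℕ) (he : 0 < e) (hem : e < m) :
    ∃ t < 4 * m + 2, pf (n₀ + t + 1 + e * (4 * m + 2)) ≠ pf (n₀ + t + 1) := by
  obtain ⟨a, h', hh', rfl⟩ := exists_pow_mul (Nat.pos_iff_ne_zero.mp he)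
  have hP : 0 < 2 ^ (a + 1) := by positivity
  have hPm : 2 ^ (a + 1) ≤ 4 * m + 2 := by
    have : 1 ≤ h' := by omega
    have : 2 ^ a * 1 ≤ 2 ^ a * h' := Nat.mul_le_mul_left _ this
    rw [pow_succ]
    omega
  have hlt : (n₀ + 1) % 2 ^ (a + 1) < 2 ^ (a + 1) := Nat.mod_lt _ hP
  set t := (2 ^ a + (2 ^ (a + 1) - (n₀ + 1) % 2 ^ (a + 1))) % 2 ^ (a + 1) with ht
  have htP : t < 2 ^ (a + 1) := Nat.mod_lt _ hP
  have hmod : (n₀ + t + 1) % 2 ^ (a + 1) = 2 ^ a := by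
    have e1 : (n₀ + t + 1) % 2 ^ (a + 1) = ((n₀ + 1) + t) % 2 ^ (a + 1) := by
      congr 1; omega
    rw [e1, ht, Nat.add_mod, Nat.mod_mod, ← Nat.add_mod]
    have e2 : n₀ + 1 + (2 ^ a + (2 ^ (a + 1) - (n₀ + 1) % 2 ^ (a + 1)))
        = 2 ^ a + 2 ^ (a + 1) * ((n₀ + 1) / 2 ^ (a + 1) + 1) := by
      have := Nat.div_add_mod (n₀ + 1) (2 ^ (a + 1))
      rw [mul_add, mul_one]
      omega
    rw [e2, Nat.add_mul_mod_self_left]
    apply Nat.mod_eq_of_lt
    rw [pow_succ]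
    have : 0 < 2 ^ a := by positivity
    omega
  refine ⟨t, lt_of_lt_of_le htP hPm, ?_⟩
  set q := (n₀ + t + 1) / 2 ^ (a + 1) with hq
  have e3 : n₀ + t + 1 = 2 ^ a * (2 * q + 1) := by
    have := Nat.div_add_mod (n₀ + t + 1) (2 ^ (a + 1))
    rw [hmod, ← hq] at this
    rw [← this]; ring
  have e4 : 2 ^ a * h' * (4 * m + 2) = 2 ^ (a + 1) * (h' * (2 * m + 1)) := by ring
  rw [e3, e4]
  apply pf_add_ne
  · omega
  · rw [Nat.mul_mod, hh']
    omega

end MP9a9528
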