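import Pool.Agent.Lib.MP_9a9528_al.Zeta
import Pool.Agent.Lib.MP_9a9528_al.Pair

/-!
Matrices of size three over the free ring, and the leading term of an iterated conjugation.
-/

namespace MP9a9528

open MonoidAlgebra

/-- the unit `1 + e` for an element `e` of square zero -/
def sq {A : Type*} [Ring A] (e : A) (he : e * e = 0) : Aˣ where
  val := 1 + e
  inv := 1 - e
  val_inv := by
    have : (1 + e) * (1 - e) = 1 - e * e := by noncomm_ring
    rw [this, he, sub_zero]
  inv_val := by
    have : (1 - e) * (1 + e) = 1 - e * e := by noncomm_ring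
    rw [this, he, sub_zero]

lemma sq_val {A : Type*} [Ring A] (e : A) (he : e * e = 0) : ((sq e he : Aˣ) : A) = 1 + e := rfl

lemma sq_inv_val {A : Type*} [Ring A] (e : A) (he : e * e = 0) :
    (((sq e he)⁻¹ : Aˣ) : A) = 1 - e := rfl

/-! ### the words -/

/-- words for the conjugates -/
def th : ℕ → Wd × Wd
  | 0 => (1, 1)
  | n + 1 => ((th n).1 * FreeMonoid.of true * (th n).2, (th n).1 * FreeMonoid.of false * (th n).2)

lemma th_eq (n : ℕ) : (th n).1 = wd 0 (2 ^ n - 1) ∧ (th n).2 = wd (2 ^ n) (2 ^ n - 1) := by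
  induction n with
  | zero => exact ⟨rfl, rfl⟩
  | succ n ih =>
    have hp : 0 < 2 ^ n := by positivity
    have hs : 2 ^ (n + 1) - 1 = (2 ^ n - 1 + 1) + (2 ^ n - 1) := by rw [pow_succ]; omega
    have hs1 : 2 ^ n - 1 + 1 = 2 ^ n := by omega
    constructor
    · rw [th, ih.1, ih.2, hs, wd_add, wd_succ]
      have e1 : pf (0 + (2 ^ n - 1) + 1) = true := by
        rw [zero_add, hs1, pf_two_pow]
      rw [e1, zero_add, hs1]
    · rw [th, ih.1, ih.2, hs, wd_add, wd_succ]
      have e1 : pf (2 ^ (n + 1) + (2 ^ n - 1) + 1) = false := by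
        rw [add_assoc, hs1, show 2 ^ (n + 1) + 2 ^ n = 2 ^ n * 3 by ring, pf_two_pow_mul _ _ rfl]
        rfl
      have e2 : wd (2 ^ (n + 1)) (2 ^ n - 1) = wd 0 (2 ^ n - 1) := by
        apply wd_congr
        intro i hi hin
        have := pf_block (s := n) (c := 2) (c' := 0) (i := i) rfl hi (by omega)
        rwa [show 2 * 2 ^ n = 2 ^ (n + 1) by ring, zero_mul] at this
      have e3 : wd (2 ^ (n + 1) + (2 ^ n - 1 + 1)) (2 ^ n - 1) = wd (2 ^ n) (2 ^ n - 1) := by
        rw [hs1]
        apply wd_congr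
        intro i hi hin
        have := pf_block (s := n) (c := 3) (c' := 1) (i := i) rfl hi (by omega)
        rwa [show 3 * 2 ^ n = 2 ^ (n + 1) + 2 ^ n by ring, one_mul] at this
      rw [e1, e2, e3]

lemma th_true (n : ℕ) : (th n).1 * FreeMonoid.of true = wd 0 (2 ^ n) := by
  have hp : 0 < 2 ^ n := by positivity
  have hs1 : 2 ^ n - 1 + 1 = 2 ^ n := by omega
  rw [(th_eq n).1]
  conv_rhs => rw [← hs1]
  rw [wd_succ, zero_add, hs1, pf_two_pow]

lemma th_length (n : ℕ) : (th n).1.length = 2 ^ n - 1 ∧ (th n).2.length = 2 ^ n - 1 := by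
  rw [(th_eq n).1, (th_eq n).2, wd_length, wd_length]
  exact ⟨rfl, rfl⟩

/-! ### degree filtration -/

/-- elements of degree less than `n` -/
def fl (n : ℕ) : AddSubgroup (T ℤ) where
  carrier := {t | ∀ w, t.coeff w ≠ 0 → w.length < n}
  zero_mem' := by intro w h; simp at h
  add_mem' := by
    intro s t hs ht w hw
    by_cases h : s.coeff w = 0
    · apply ht
      intro h'
      apply hw
      rw [coeff_add, Finsupp.add_apply, h, h', add_zero]
    · exact hs w h
  neg_mem' := by
    intro t ht w hw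
    apply ht
    intro h
    apply hw
    rw [coeff_neg, Finsupp.neg_apply, h, neg_zero]

lemma fl_mono {m n : ℕ} (h : m ≤ n) : fl m ≤ fl n := fun _ ht w hw => lt_of_lt_of_le (ht w hw) h

lemma fl_mul {a b : ℕ} {s t : T ℤ} (hs : s ∈ fl (a + 1)) (ht : t ∈ fl b) :
    s * t ∈ fl (a + b) := by
  intro w hw
  obtain ⟨u, v, rfl, hu, hv⟩ := exists_of_coeff_mul_ne hw
  have h1 := hs u hu
  have h2 := ht v hv
  rw [FreeMonoid.length_mul]
  omega

lemma fl_mul' {a b : ℕ} {s t : T ℤ} (hs : s ∈ fl a) (ht : t ∈ fl (b + 1)) :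
    s * t ∈ fl (a + b) := by
  intro w hw
  obtain ⟨u, v, rfl, hu, hv⟩ := exists_of_coeff_mul_ne hw
  have h1 := hs u hu
  have h2 := ht v hv
  rw [FreeMonoid.length_mul]
  omega

lemma single_mem_fl (w : Wd) (a : ℤ) : (single w a : T ℤ) ∈ fl (w.length + 1) := by
  intro v hv
  classical
  rw [coeff_single, Finsupp.single_apply] at hv
  by_cases h : w = v
  · rw [h]; omega
  · rw [if_neg h] at hv; exact absurd rfl hv

lemma one_mem_fl : (1 : T ℤ) ∈ fl 1 := by
  rw [one_def]
  exact single_mem_fl 1 1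

lemma ltr_mem_fl (x : Bool) : ltr ℤ x ∈ fl 2 := single_mem_fl (FreeMonoid.of x) 1

/-- matrices over the free ring -/
abbrev MT := Matrix (Fin 3) (Fin 3) (T ℤ)

/-- matrices with entries of degree less than `n` -/
def MF (n : ℕ) : AddSubgroup MT where
  carrier := {X | ∀ i j, X i j ∈ fl n}
  zero_mem' := fun _ _ => (fl n).zero_mem
  add_mem' := fun hX hY i j => (fl n).add_mem (hX i j) (hY i j)
  neg_mem' := fun hX i j => (fl n).neg_mem (hX i j)

lemma MF_mono {m n : ℕ} (h : m ≤ n) : MF m ≤ MF n := fun _ hX i j => fl_mono h (hX i j)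

lemma MF_mul {a b : ℕ} {X Y : MT} (hX : X ∈ MF (a + 1)) (hY : Y ∈ MF b) : X * Y ∈ MF (a + b) := by
  intro i j
  rw [Matrix.mul_apply]
  exact AddSubgroup.sum_mem _ fun k _ => fl_mul (hX i k) (hY k j)

lemma MF_mul' {a b : ℕ} {X Y : MT} (hX : X ∈ MF a) (hY : Y ∈ MF (b + 1)) :
    X * Y ∈ MF (a + b) := by
  intro i j
  rw [Matrix.mul_apply]
  exact AddSubgroup.sum_mem _ fun k _ => fl_mul' (hX i k) (hY k j)

/-- the nilpotent matrix carrying the letters -/
noncomputable def tc : MT :=
  !![0, ltr ℤ true, ltr ℤ true + ltr ℤ false; 0, 0, 0; 0, 0, 0]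

lemma tc_sq : tc * tc = 0 := by
  ext i j
  fin_cases i <;> fin_cases j <;> simp [tc, Matrix.mul_apply, Fin.sum_univ_three]

/-- elementary matrices -/
noncomputable def te1 : MT := Matrix.single 1 0 1

/-- elementary matrices -/
noncomputable def te2 : MT := Matrix.single 2 1 1

lemma single_sq {A : Type*} [Ring A] {i j : Fin 3} (h : i ≠ j) :
    (Matrix.single i j (1 : A)) * Matrix.single i j 1 = 0 := by
  rw [Matrix.single_mul_single_of_ne]
  exact h.symm

lemma te1_sq : te1 * te1 = 0 := single_sq (by decide)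

lemma te2_sq : te2 * te2 = 0 := single_sq (by decide)

/-- first Engel generator -/
noncomputable def u1 : MTˣ := sq te1 te1_sq

/-- second Engel generator -/
noncomputable def u2 : MTˣ := sq te2 te2_sq

/-- third generator -/
noncomputable def uw : MTˣ := sq tc tc_sq

/-- the product of the Engel generators -/
noncomputable def ug : MTˣ := u1 * u2

lemma ug_val : (ug : MT) = !![1, 0, 0; 1, 1, 0; 0, 1, 1] := by
  rw [ug, u1, u2, Units.val_mul, sq_val, sq_val]
  ext i j
  fin_cases i <;> fin_cases j <;>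
    simp [te1, te2, Matrix.mul_apply, Fin.sum_univ_three, Matrix.single, Matrix.one_apply]

lemma ug_inv_val : ((ug⁻¹ : MTˣ) : MT) = !![1, 0, 0; -1, 1, 0; 1, -1, 1] := by
  rw [ug, u1, u2, mul_inv_rev, Units.val_mul, sq_inv_val, sq_inv_val]
  ext i j
  fin_cases i <;> fin_cases j <;>
    simp [te1, te2, Matrix.mul_apply, Fin.sum_univ_three, Matrix.single, Matrix.one_apply]

lemma tc_ug (s : T ℤ) : tc * (ug : MT) * (s • tc) = (ltr ℤ true * s) • tc := by
  rw [ug_val]
  ext i j
  fin_cases i <;> fin_cases j <;>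
    simp [tc, Matrix.mul_apply, Fin.sum_univ_three, mul_add, mul_assoc]

lemma tc_ug_inv (s : T ℤ) : tc * ((ug⁻¹ : MTˣ) : MT) * (s • tc) = (ltr ℤ false * s) • tc := by
  rw [ug_inv_val]
  ext i j
  fin_cases i <;> fin_cases j <;>
    simp [tc, Matrix.mul_apply, Fin.sum_univ_three, mul_add, mul_assoc]

lemma tc_mem : tc ∈ MF 2 := by
  intro i j
  have h0 : (0 : T ℤ) ∈ fl 2 := (fl 2).zero_mem
  have h1 := ltr_mem_fl true
  have h2 := (fl 2).add_mem (ltr_mem_fl true) (ltr_mem_fl false)
  fin_cases i <;> fin_cases j <;> first | exact h0 | exact h1 | exact h2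

lemma ug_mem : (ug : MT) ∈ MF 1 := by
  rw [ug_val]
  intro i j
  have h0 : (0 : T ℤ) ∈ fl 1 := (fl 1).zero_mem
  have h1 := one_mem_fl
  fin_cases i <;> fin_cases j <;> first | exact h0 | exact h1

lemma ug_inv_mem : ((ug⁻¹ : MTˣ) : MT) ∈ MF 1 := by
  rw [ug_inv_val]
  intro i j
  have h0 : (0 : T ℤ) ∈ fl 1 := (fl 1).zero_mem
  have h1 := one_mem_fl
  have h2 := (fl 1).neg_mem one_mem_fl
  fin_cases i <;> fin_cases j <;> first | exact h0 | exact h1 | exact h2

lemma smul_tc_mem (w : Wd) (a : ℤ) : (single w a : T ℤ) • tc ∈ MF (w.length + 1 + 1) := by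
  intro i j
  rw [Matrix.smul_apply, smul_eq_mul]
  have h1 := single_mem_fl w a
  have h2 : tc i j ∈ fl (1 + 1) := tc_mem i j
  exact fl_mul' h1 h2

/-- the iterated conjugates -/
noncomputable def zt : ℕ → MTˣ
  | 0 => uw⁻¹
  | n + 1 => zt n * ug * (zt n)⁻¹

lemma top_step {n : ℕ} {L L' X Y h : MT} (hL : L ∈ MF (n + 1)) (hL' : L' ∈ MF (n + 1))
    (hX : X - L ∈ MF n) (hY : Y - L' ∈ MF n) (hh : h ∈ MF 1) :
    X * h * Y - L * h * L' ∈ MF (n + n) := by
  have hh' : h ∈ MF (0 + 1) := hh
  have e : X * h * Y - L * h * L'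
      = L * h * (Y - L') + (X - L) * h * L' + (X - L) * h * (Y - L') := by noncomm_ring
  rw [e]
  have a1 : L * h ∈ MF (n + 1) := MF_mul hL hh
  have a2 : (X - L) * h ∈ MF n := MF_mul' hX hh'
  refine add_mem (add_mem (MF_mul a1 hY) (MF_mul' a2 hL')) ?_
  exact MF_mul (MF_mono (Nat.le_succ n) a2) hY

theorem zt_top (n : ℕ) : ∃ a b : ℤ, a * a = 1 ∧ b * b = 1 ∧
    ((zt n : MTˣ) : MT) - (single (th n).1 a : T ℤ) • tc ∈ MF (2 ^ n) ∧
    (((zt n)⁻¹ : MTˣ) : MT) - (single (th n).2 b : T ℤ) • tc ∈ MF (2 ^ n) := by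
  induction n with
  | zero =>
    refine ⟨-1, 1, by norm_num, by norm_num, ?_, ?_⟩
    · have e : ((zt 0 : MTˣ) : MT) - (single (th 0).1 (-1) : T ℤ) • tc = 1 := by
        rw [zt, uw, sq_inv_val]
        have : (single (th 0).1 (-1) : T ℤ) = -1 := by
          rw [th, one_def, ← single_neg]
        rw [this, neg_smul, one_smul]
        abel
      rw [e]
      intro i j
      rw [Matrix.one_apply]
      split_ifs
      · exact one_mem_fl
      · exact (fl _).zero_mem
    · have e : (((zt 0)⁻¹ : MTˣ) : MT) - (single (th 0).2 1 : T ℤ) • tc = 1 := by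
        rw [zt, inv_inv, uw, sq_val]
        have : (single (th 0).2 1 : T ℤ) = 1 := by
          rw [th, one_def]
        rw [this, one_smul]
        abel
      rw [e]
      intro i j
      rw [Matrix.one_apply]
      split_ifs
      · exact one_mem_fl
      · exact (fl _).zero_mem
  | succ n ih =>
    obtain ⟨a, b, ha, hb, h1, h2⟩ := ih
    have hp : 0 < 2 ^ n := by positivity
    have hl1 : (single (th n).1 a : T ℤ) • tc ∈ MF (2 ^ n + 1) := by
      have := smul_tc_mem (th n).1 a
      rwa [(th_length n).1, show 2 ^ n - 1 + 1 = 2 ^ n by omega] at this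
    have hl2 : (single (th n).2 b : T ℤ) • tc ∈ MF (2 ^ n + 1) := by
      have := smul_tc_mem (th n).2 b
      rwa [(th_length n).2, show 2 ^ n - 1 + 1 = 2 ^ n by omega] at this
    have hab : a * b * (a * b) = 1 := by
      calc a * b * (a * b) = (a * a) * (b * b) := by ring
        _ = 1 := by rw [ha, hb, one_mul]
    refine ⟨a * b, a * b, hab, hab, ?_, ?_⟩
    · have := top_step hl1 hl2 h1 h2 ug_mem
      have e1 : (single (th n).1 a : T ℤ) • tc * (ug : MT) * ((single (th n).2 b : T ℤ) • tc)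
          = (single (th (n + 1)).1 (a * b) : T ℤ) • tc := by
        rw [Matrix.smul_mul, Matrix.smul_mul, tc_ug, ← mul_smul, th]
        congr 1
        rw [ltr, single_mul_single, single_mul_single, one_mul, mul_assoc]
      rw [e1] at this
      rw [show 2 ^ (n + 1) = 2 ^ n + 2 ^ n by ring, zt, Units.val_mul, Units.val_mul]
      exact this
    · have := top_step hl1 hl2 h1 h2 ug_inv_mem
      have e1 : (single (th n).1 a : T ℤ) • tc * ((ug⁻¹ : MTˣ) : MT)
            * ((single (th n).2 b : T ℤ) • tc)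
          = (single (th (n + 1)).2 (a * b) : T ℤ) • tc := by
        rw [Matrix.smul_mul, Matrix.smul_mul, tc_ug_inv, ← mul_smul, th]
        congr 1
        rw [ltr, single_mul_single, single_mul_single, one_mul]
        exact congrArg (fun v => (single v (a * b) : T ℤ)) (mul_assoc _ _ _).symm
      rw [e1] at this
      have e2 : (zt (n + 1))⁻¹ = zt n * ug⁻¹ * (zt n)⁻¹ := by
        rw [zt]; group
      rw [show 2 ^ (n + 1) = 2 ^ n + 2 ^ n by ring, e2, Units.val_mul, Units.val_mul]
      exact this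

/-- the hierarchical functionals see the leading term of the iterated conjugate -/
theorem pair_zt (K : ℕ) : pair (zeta ℤ K 0) (((zt (kap K) : MTˣ) : MT) 0 1) ≠ 0 := by
  obtain ⟨a, b, ha, _, h1, _⟩ := zt_top (kap K)
  have h := h1 0 1
  set D := (((zt (kap K) : MTˣ) : MT) - (single (th (kap K)).1 a : T ℤ) • tc) 0 1 with hD
  have e : ((zt (kap K) : MTˣ) : MT) 0 1 = single (th (kap K)).1 a * ltr ℤ true + D := by
    rw [hD, Matrix.sub_apply, Matrix.smul_apply, smul_eq_mul]
    have : tc 0 1 = ltr ℤ true := rfl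
    rw [this]
    abel
  have e1 : (single (th (kap K)).1 a * ltr ℤ true : T ℤ) = single (wd 0 (len K)) a := by
    rw [ltr, single_mul_single, mul_one, th_true]
    rfl
  have e2 : pair (zeta ℤ K 0) D = 0 := by
    apply pair_eq_zero_of_forall
    intro w
    by_cases hw : w.length = len K
    · right
      by_contra hne
      have := h w hne
      have h2 : len K = 2 ^ kap K := rfl
      omega
    · left
      by_contra hne
      exact hw (zeta_length K 0 w hne)
  have e3 : (zeta ℤ K 0).coeff (wd 0 (len K)) = 1 := by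
    have := zeta_coeff_one (R := ℤ) K 0
    rwa [zero_mul] at this
  rw [e, pair_add_right, e2, add_zero, e1, pair_single_right, e3, one_mul]
  rintro rfl
  norm_num at ha

end MP9a9528
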