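import Pool.Agent.Lib.MP_9a9528_al.Paper
import Pool.Agent.Lib.MP_9a9528_al.Free
import Pool.Agent.Lib.MP_9a9528_al.Std

/-!
The hierarchical alternating functionals `zeta k b`, and their value on the paperfolding words.
-/

namespace MP9a9528

open MonoidAlgebra

/-- product of a stretch of a sequence -/
def blk {S : Type*} [Monoid S] (z : ℕ → S) (s : ℕ) : ℕ → S
  | 0 => 1
  | n + 1 => blk z s n * z (s + n)

lemma blk_add {S : Type*} [Monoid S] (z : ℕ → S) (s a b : ℕ) :
    blk z s (a + b) = blk z s a * blk z (s + a) b := by
  induction b with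
  | zero => simp [blk]
  | succ b ih => rw [← add_assoc, blk, ih, blk, mul_assoc, add_assoc]

lemma map_blk {S S' : Type*} [Monoid S] [Monoid S'] (f : S →* S') (z : ℕ → S) (s n : ℕ) :
    f (blk z s n) = blk (fun i => f (z i)) s n := by
  induction n with
  | zero => simp [blk]
  | succ n ih => rw [blk, map_mul, ih, blk]

/-- number of groups at level `k` -/
def mm (k : ℕ) : ℕ := k + 1

/-- length of a group at level `k` -/
def mu (k : ℕ) : ℕ := 4 * mm k + 2

/-- exponent of the number of blocks -/
def ex (k : ℕ) : ℕ := 2 * mm k + 3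

/-- number of level `k` blocks in a block of level `k+1` -/
def NN (k : ℕ) : ℕ := 2 ^ ex k

lemma mm_mul_mu_le (k : ℕ) : mm k * mu k ≤ NN k := by
  have h : mm k ≤ 2 ^ mm k := Nat.lt_two_pow_self.le
  have h0 : 1 ≤ mm k := by unfold mm; omega
  unfold mu NN ex
  have e : 2 ^ (2 * mm k + 3) = 8 * (2 ^ mm k * 2 ^ mm k) := by ring
  rw [e]
  have h1 : mm k * mm k ≤ 2 ^ mm k * 2 ^ mm k := Nat.mul_le_mul h h
  nlinarith [h1, h0]

/-- exponent of the block length -/
def kap : ℕ → ℕ
  | 0 => 0
  | k + 1 => kap k + ex k

/-- block length -/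
def len (k : ℕ) : ℕ := 2 ^ kap k

lemma len_zero : len 0 = 1 := rfl

lemma len_succ (k : ℕ) : len (k + 1) = NN k * len k := by
  unfold len NN
  rw [kap, pow_add, mul_comm]

lemma len_pos (k : ℕ) : 0 < len k := by unfold len; positivity

lemma kap_lt (k : ℕ) : kap k < kap (k + 1) := by
  rw [kap, ex]; omega

lemma kap_strictMono : StrictMono kap := strictMono_nat_of_lt_succ kap_lt

lemma len_strictMono : StrictMono len := by
  intro a b h
  exact Nat.pow_lt_pow_right (by norm_num) (kap_strictMono h)

variable {R : Type} [CommRing R]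

/-- the hierarchical elements -/
noncomputable def zeta (R : Type) [CommRing R] : ℕ → ℕ → T R
  | 0, b => ltr R (pf (b + 1))
  | k + 1, b =>
      std (fun i : Fin (mm k) => blk (zeta R k) (b * NN k + i * mu k) (mu k)) *
        blk (zeta R k) (b * NN k + mm k * mu k) (NN k - mm k * mu k)

/-- paperfolding words -/
def wd (s n : ℕ) : Wd := blk (fun i => FreeMonoid.of (pf (i + 1))) s n

lemma wd_add (s a b : ℕ) : wd s (a + b) = wd s a * wd (s + a) b := blk_add _ _ _ _

lemma wd_succ (s n : ℕ) : wd s (n + 1) = wd s n * FreeMonoid.of (pf (s + n + 1)) := rfl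

lemma wd_zero (s : ℕ) : wd s 0 = 1 := rfl

lemma wd_length (s n : ℕ) : (wd s n).length = n := by
  induction n with
  | zero => rfl
  | succ n ih => rw [wd_succ, FreeMonoid.length_mul, ih, FreeMonoid.length_of]

/-! ### gradings -/

lemma std_mem_grd {χ : Wd → ℕ} (hχ : ∀ u v, χ (u * v) = χ u + χ v) (h1 : χ 1 = 0) {m : ℕ}
    (Y : Fin m → T R) (a : Fin m → ℕ) (hY : ∀ i, Y i ∈ grd R χ (a i)) :
    std Y ∈ grd R χ (∑ i, a i) := by
  have key : ∀ (n : ℕ) (Y' : Fin n → T R) (a' : Fin n → ℕ), (∀ i, Y' i ∈ grd R χ (a' i)) →
      (List.ofFn Y').prod ∈ grd R χ (∑ i, a' i) := by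
    intro n
    induction n with
    | zero => intro Y' a' _; simpa using one_mem_grd h1
    | succ n ih =>
      intro Y' a' h
      rw [List.ofFn_succ, List.prod_cons, Fin.sum_univ_succ]
      exact grd_mul hχ (h 0) (ih _ _ fun i => h i.succ)
  unfold std
  refine Submodule.sum_mem _ fun σ _ => ?_
  apply zsmul_mem
  have := key m (fun i => Y (σ i)) (fun i => a (σ i)) fun i => hY _
  rwa [Equiv.sum_comp σ a] at this

lemma blk_mem_grd {χ : Wd → ℕ} (hχ : ∀ u v, χ (u * v) = χ u + χ v) (h1 : χ 1 = 0)
    (z : ℕ → T R) (u : ℕ → Wd) (hz : ∀ i, z i ∈ grd R χ (χ (u i))) (s n : ℕ) :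
    blk z s n ∈ grd R χ (χ (blk u s n)) := by
  induction n with
  | zero => simpa [blk, h1] using one_mem_grd (R := R) h1
  | succ n ih =>
    rw [blk, blk, hχ]
    exact grd_mul hχ ih (hz _)

lemma blk_wd (ℓ s n : ℕ) : blk (fun i => wd (i * ℓ) ℓ) s n = wd (s * ℓ) (n * ℓ) := by
  induction n with
  | zero => simp [blk, wd_zero]
  | succ n ih =>
    rw [blk, ih]
    rw [show (n + 1) * ℓ = n * ℓ + ℓ by ring, wd_add, add_mul]

lemma zeta_mem_grd {χ : Wd → ℕ} (hχ : ∀ u v, χ (u * v) = χ u + χ v) (h1 : χ 1 = 0) (k b : ℕ) :
    zeta R k b ∈ grd R χ (χ (wd (b * len k) (len k))) := by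
  induction k generalizing b with
  | zero =>
    intro w hw
    classical
    rw [zeta, ltr, coeff_single, Finsupp.single_apply] at hw
    by_cases h : FreeMonoid.of (pf (b + 1)) = w
    · rw [← h, len_zero, mul_one, wd_succ, wd_zero, one_mul, add_zero]
    · rw [if_neg h] at hw
      exact absurd rfl hw
  | succ k ih =>
    rw [zeta]
    have hblk : ∀ s n, blk (zeta R k) s n ∈ grd R χ (χ (wd (s * len k) (n * len k))) := by
      intro s n
      rw [← blk_wd]
      exact blk_mem_grd hχ h1 _ _ ih s n
    have hstd := std_mem_grd hχ h1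
      (fun i : Fin (mm k) => blk (zeta R k) (b * NN k + i * mu k) (mu k))
      (fun i : Fin (mm k) => χ (wd ((b * NN k + i * mu k) * len k) (mu k * len k)))
      (fun i => hblk _ _)
    have hsum : ∀ m, ∑ i : Fin m, χ (wd ((b * NN k + i * mu k) * len k) (mu k * len k))
        = χ (wd (b * NN k * len k) (m * mu k * len k)) := by
      intro m
      induction m with
      | zero => simp [wd_zero, h1]
      | succ m ihm =>
        rw [Fin.sum_univ_castSucc]
        simp only [Fin.val_castSucc, Fin.val_last]
        rw [ihm, ← hχ, add_mul (b * NN k), ← wd_add]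
        congr 2
        ring
    rw [hsum] at hstd
    have := grd_mul hχ hstd (hblk (b * NN k + mm k * mu k) (NN k - mm k * mu k))
    rw [← hχ, add_mul (b * NN k), ← wd_add] at this
    have e1 : mm k * mu k * len k + (NN k - mm k * mu k) * len k = len (k + 1) := by
      rw [← add_mul, Nat.add_sub_cancel' (mm_mul_mu_le k), len_succ]
    have e2 : b * NN k * len k = b * len (k + 1) := by rw [len_succ, mul_assoc]
    rwa [e1, e2] at this

/-! ### coefficients of products -/

lemma length_additive : ∀ u v : Wd, (u * v).length = u.length + v.length :=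
  fun u v => FreeMonoid.length_mul u v

lemma coeff_mul_of_length {n : ℕ} {f : T R} (hf : f ∈ grd R FreeMonoid.length n) {u : Wd}
    (hu : u.length = n) (g : T R) (v : Wd) :
    (f * g).coeff (u * v) = f.coeff u * g.coeff v := by
  induction n generalizing f u with
  | zero =>
    have hu1 : u = 1 := FreeMonoid.length_eq_zero.mp hu
    subst hu1
    have hf1 : f = single 1 (f.coeff 1) := by
      ext w
      classical
      rw [coeff_single, Finsupp.single_apply]
      split_ifs with h
      · rw [h]
      · by_contra hne
        have := hf w hne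
        exact h (FreeMonoid.length_eq_zero.mp this).symm
    rw [one_mul]
    conv_lhs => rw [hf1]
    rw [coeff_single_one_mul]
  | succ n ih =>
    rcases wd_left u with rfl | ⟨x, u', rfl⟩
    · simp at hu
    · have hu' : u'.length = n := by
        rw [FreeMonoid.length_mul, FreeMonoid.length_of] at hu; omega
      have h0 : f.coeff 1 = 0 := by
        by_contra hne
        have := hf 1 hne
        simp at this
      have hd : dl x f ∈ grd R FreeMonoid.length n := by
        intro w hw
        rw [dl_coeff] at hw
        have := hf _ hw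
        rw [FreeMonoid.length_mul, FreeMonoid.length_of] at this
        omega
      rw [mul_assoc, ← dl_coeff, dl_mul, h0, zero_smul, add_zero, ih hd hu', dl_coeff]

lemma coeff_blk {L : ℕ} (z : ℕ → T R) (hz : ∀ i, z i ∈ grd R FreeMonoid.length L)
    (u : ℕ → Wd) (hu : ∀ i, (u i).length = L) (s s' n : ℕ) :
    (blk z s n).coeff (blk u s' n) = ∏ t ∈ Finset.range n, (z (s + t)).coeff (u (s' + t)) := by
  have hlen : ∀ n, (blk u s' n).length = n * L := by
    intro n
    induction n with
    | zero => simp [blk]
    | succ n ih => rw [blk, FreeMonoid.length_mul, ih, hu, add_mul, one_mul]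
  have hmem : ∀ n, blk z s n ∈ grd R FreeMonoid.length (n * L) := by
    intro n
    induction n with
    | zero => simpa [blk] using one_mem_grd (R := R) FreeMonoid.length_one
    | succ n ih =>
      rw [blk, add_mul, one_mul]
      exact grd_mul length_additive ih (hz _)
  induction n with
  | zero => simp [blk]
  | succ n ih => rw [blk, blk, coeff_mul_of_length (hmem n) (hlen n), ih, Finset.prod_range_succ]

lemma coeff_ofFn {L : ℕ} : ∀ (m : ℕ) (Y : Fin m → T R) (_ : ∀ i, Y i ∈ grd R FreeMonoid.length L)
    (V : Fin m → Wd) (_ : ∀ i, (V i).length = L),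
    (List.ofFn Y).prod.coeff (List.ofFn V).prod = ∏ i, (Y i).coeff (V i) := by
  intro m
  induction m with
  | zero => intro Y _ V _; simp
  | succ m ih =>
    intro Y hY V hV
    rw [List.ofFn_succ, List.prod_cons, List.ofFn_succ, List.prod_cons,
      coeff_mul_of_length (hY 0) (hV 0), ih _ (fun i => hY i.succ) _ (fun i => hV i.succ),
      Fin.prod_univ_succ]

lemma coeff_std {L m : ℕ} (Y : Fin m → T R) (hY : ∀ i, Y i ∈ grd R FreeMonoid.length L)
    (V : Fin m → Wd) (hV : ∀ i, (V i).length = L) :
    (std Y).coeff (List.ofFn V).prod = (Matrix.of fun j i => (Y j).coeff (V i)).det := by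
  rw [Matrix.det_apply]
  unfold std
  rw [coeff_sum, Finsupp.finsetSum_apply]
  refine Finset.sum_congr rfl fun σ _ => ?_
  have h := coeff_ofFn m (fun i => Y (σ i)) (fun i => hY _) V hV
  simp only [Matrix.of_apply]
  rw [← h]
  rcases Int.units_eq_one_or (Equiv.Perm.sign σ) with hs | hs <;> rw [hs] <;> simp

/-! ### the diagonal coefficient -/

lemma zeta_length (k b : ℕ) : zeta R k b ∈ grd R FreeMonoid.length (len k) := by
  have := zeta_mem_grd (R := R) length_additive FreeMonoid.length_one k b
  rwa [wd_length] at this

/-- number of letters `true` -/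
def cnt (w : Wd) : ℕ := (FreeMonoid.toList w).count true

lemma cnt_mul (u v : Wd) : cnt (u * v) = cnt u + cnt v := by
  unfold cnt
  rw [FreeMonoid.toList_mul, List.count_append]

lemma cnt_one : cnt 1 = 0 := rfl

lemma wd_congr (s s' n : ℕ) (h : ∀ i, 0 < i → i ≤ n → pf (s + i) = pf (s' + i)) :
    wd s n = wd s' n := by
  induction n with
  | zero => rfl
  | succ n ih =>
    rw [wd_succ, wd_succ, ih fun i hi hin => h i hi (by omega), add_assoc s, add_assoc s',
      h (n + 1) (by omega) le_rfl]

lemma zeta_coeff_eq_zero {k c c' : ℕ} (hc : c % 2 = c' % 2) (hne : pf (c + 1) ≠ pf (c' + 1)) :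
    (zeta R k c).coeff (wd (c' * len k) (len k)) = 0 := by
  by_contra hcon
  have h := zeta_mem_grd (R := R) cnt_mul cnt_one k c _ hcon
  obtain ⟨l, hl⟩ : ∃ l, len k = l + 1 := ⟨len k - 1, by have := len_pos k; omega⟩
  have e : ∀ d, wd (d * len k) (len k) = wd (d * len k) l * FreeMonoid.of (pf (d + 1)) := by
    intro d
    conv_lhs => rw [show wd (d * len k) (len k) = wd (d * len k) (l + 1) by rw [← hl]]
    rw [wd_succ]
    have : pf (d * len k + l + 1) = pf (d + 1) := by
      rw [add_assoc, ← hl, show d * len k + len k = len k * (d + 1) by ring]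
      exact pf_pow_mul _ _ (by omega)
    rw [this]
  have e2 : wd (c' * len k) l = wd (c * len k) l := by
    apply wd_congr
    intro i hi hil
    exact (pf_block (s := kap k) hc hi (by change i < len k; omega)).symm
  rw [e, e, e2, cnt_mul, cnt_mul] at h
  have ht : cnt (FreeMonoid.of true) = 1 := rfl
  have hf : cnt (FreeMonoid.of false) = 0 := rfl
  cases h1 : pf (c + 1) <;> cases h2 : pf (c' + 1) <;> rw [h1, h2] at h <;>
    first
      | (rw [h1, h2] at hne; exact hne rfl)
      | (rw [ht, hf] at h; omega)

lemma prod_wd (b k : ℕ) : ∀ m, (List.ofFn fun i : Fin m =>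
    wd ((b * NN k + i * mu k) * len k) (mu k * len k)).prod
      = wd (b * NN k * len k) (m * mu k * len k) := by
  intro m
  induction m with
  | zero => simp [wd_zero]
  | succ m ih =>
    rw [List.ofFn_succ', List.concat_eq_append, List.prod_append]
    simp only [Fin.val_castSucc, Fin.val_last, List.prod_singleton]
    rw [ih, add_mul (b * NN k), ← wd_add]
    congr 1
    ring

theorem zeta_coeff_one (k b : ℕ) : (zeta R k b).coeff (wd (b * len k) (len k)) = 1 := by
  induction k generalizing b with
  | zero =>
    rw [zeta, ltr, coeff_single, len_zero, mul_one, wd_succ, wd_zero, one_mul, add_zero]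
    exact Finsupp.single_eq_same
  | succ k ih =>
    have hmu : 0 < mu k := by unfold mu; omega
    have hblkl : ∀ s n, blk (zeta R k) s n ∈ grd R FreeMonoid.length (n * len k) := by
      intro s n
      have := blk_mem_grd (R := R) length_additive FreeMonoid.length_one (zeta R k)
        (fun i => wd (i * len k) (len k)) (by
          intro i
          rw [wd_length]
          exact zeta_length k i) s n
      rwa [blk_wd, wd_length] at this
    have hcoef : ∀ s s' n, (blk (zeta R k) s n).coeff (wd (s' * len k) (n * len k))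
        = ∏ t ∈ Finset.range n, (zeta R k (s + t)).coeff (wd ((s' + t) * len k) (len k)) := by
      intro s s' n
      rw [← blk_wd]
      exact coeff_blk (zeta R k) (zeta_length k) (fun i => wd (i * len k) (len k))
        (fun i => wd_length _ _) s s' n
    have e : wd (b * len (k + 1)) (len (k + 1))
        = (List.ofFn fun i : Fin (mm k) =>
            wd ((b * NN k + i * mu k) * len k) (mu k * len k)).prod *
          wd ((b * NN k + mm k * mu k) * len k) ((NN k - mm k * mu k) * len k) := by
      rw [prod_wd, add_mul (b * NN k), ← wd_add, ← add_mul,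
        Nat.add_sub_cancel' (mm_mul_mu_le k), len_succ, mul_assoc]
    have hstdl : std (fun i : Fin (mm k) => blk (zeta R k) (b * NN k + i * mu k) (mu k))
        ∈ grd R FreeMonoid.length (mm k * mu k * len k) := by
      have := std_mem_grd (R := R) length_additive FreeMonoid.length_one
        (fun i : Fin (mm k) => blk (zeta R k) (b * NN k + i * mu k) (mu k))
        (fun _ => mu k * len k) (fun i => hblkl _ _)
      simpa [mul_assoc] using this
    rw [e, zeta, coeff_mul_of_length hstdl (by rw [prod_wd, wd_length]), hcoef,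
      coeff_std (L := mu k * len k) _ (fun i => hblkl _ _) _ (fun i => wd_length _ _)]
    have hrest : ∏ t ∈ Finset.range (NN k - mm k * mu k),
        (zeta R k (b * NN k + mm k * mu k + t)).coeff
          (wd ((b * NN k + mm k * mu k + t) * len k) (len k)) = 1 :=
      Finset.prod_eq_one fun t _ => ih _
    rw [hrest, mul_one]
    have hone : (Matrix.of fun (j i : Fin (mm k)) =>
        (blk (zeta R k) (b * NN k + j * mu k) (mu k)).coeff
          (wd ((b * NN k + i * mu k) * len k) (mu k * len k))) = 1 := by
      ext j i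
      rw [Matrix.of_apply, hcoef]
      by_cases hji : j = i
      · subst hji
        rw [Matrix.one_apply_eq]
        exact Finset.prod_eq_one fun t _ => ih _
      · rw [Matrix.one_apply_ne hji]
        have hji' : (j : ℕ) ≠ i := fun h => hji (Fin.ext h)
        have hpar : ∀ t, (b * NN k + j * mu k + t) % 2 = (b * NN k + i * mu k + t) % 2 := by
          intro t
          have h2 : mu k = 2 * (2 * mm k + 1) := by unfold mu; ring
          rw [h2, show b * NN k + j * (2 * (2 * mm k + 1)) + t
              = (b * NN k + t) + 2 * (j * (2 * mm k + 1)) by ring,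
            show b * NN k + i * (2 * (2 * mm k + 1)) + t
              = (b * NN k + t) + 2 * (i * (2 * mm k + 1)) by ring]
          omega
        rcases lt_or_gt_of_ne hji' with hlt | hlt
        · obtain ⟨t, ht, hne⟩ := exists_pf_ne (mm k) (b * NN k + j * mu k) (i - j)
            (by omega) (by have := i.2; omega)
          refine Finset.prod_eq_zero (Finset.mem_range.mpr ht) ?_
          apply zeta_coeff_eq_zero (hpar t)
          have e3 : b * NN k + j * mu k + t + 1 + (i - j) * (4 * mm k + 2)
              = b * NN k + i * mu k + t + 1 := by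
            change b * NN k + j * mu k + t + 1 + (i - j) * mu k = _
            obtain ⟨d, hd⟩ := Nat.exists_eq_add_of_lt hlt
            rw [hd, show (j : ℕ) + d + 1 - j = d + 1 by omega]
            ring
          rw [e3] at hne
          exact hne.symm
        · obtain ⟨t, ht, hne⟩ := exists_pf_ne (mm k) (b * NN k + i * mu k) (j - i)
            (by omega) (by have := j.2; omega)
          refine Finset.prod_eq_zero (Finset.mem_range.mpr ht) ?_
          apply zeta_coeff_eq_zero (hpar t)
          have e3 : b * NN k + i * mu k + t + 1 + (j - i) * (4 * mm k + 2)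
              = b * NN k + j * mu k + t + 1 := by
            change b * NN k + i * mu k + t + 1 + (j - i) * mu k = _
            obtain ⟨d, hd⟩ := Nat.exists_eq_add_of_lt hlt
            rw [hd, show (i : ℕ) + d + 1 - i = d + 1 by omega]
            ring
          rw [e3] at hne
          exact hne
    rw [hone, Matrix.det_one]

end MP9a9528
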